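import Pool.Agent.H465.CG.Hilb

/-!
# Zeros of bounded height of Artin L-functions: imaginary quadratic fields and their class fields

Let `K` be an imaginary quadratic field, `h` its class number, `m ≥ 1`, and `A = |D_K| m²`.  The
primitive ray class characters `χ` of `K` of conductor `(m)` are by class field theory characters of
Galois groups, and `L(s, χ)` is the Artin L-function of the representation of degree 2 of
`Gal(ℚ̄/ℚ)` induced by `χ`; for `m = 1` these are the L-functions of the generalized dihedral group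
`Gal(H/ℚ)`, `H` the Hilbert class field, and `∏_χ L(s, χ) = ζ_H(s)`.

We consider families: `K_i`, `m_i` vary with `A_i → ∞` (no field is fixed, for instance `m_i = 1` and
`|D_{K_i}| → ∞`), and `Ψ_i` is a set of primitive characters of conductor `(m_i)` of `K_i` which is
not too small, `#Ψ_i ≥ h_i m_i² A_i^(-o(1))`; for instance all `h_i` characters of the class group.
For the product `𝓛_i(s)` of the `L(s, χ)`, `χ ∈ Ψ_i` (a Dedekind zeta function of degree `2 h_i`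
for the full set with `m_i = 1`) and `X_i = #Ψ_i log A_i` (the logarithm of its conductor) we prove
without any hypothesis:

(0) the Lindelöf hypothesis in mean square: `∑_χ |L(1/2 + it, χ)|² ≤ #Ψ_i A_i^ε`, `|t| ≤ T`;
(1) almost all zeros of bounded height are near the critical line;
(2) the zeros, each with mass `1 / X_i`, converge to the measure `dt / 2π` on the critical line;
(3) the Lindelöf hypothesis `|𝓛_i(s)| ≤ exp(ε X_i)` for `Re s ≥ 1/2`, `|s| ≤ T`, `|s - 1| ≥ ε`;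
(4) `∫ |log |𝓛_i|| ≤ ε X_i` over the bounded parts of the half plane `Re s ≥ 1/2`;
(5) every point of the critical line, e.g. the central point, is a zero of small multiplicity:
  `∑_χ ord_{s = 1/2 + it} L(s, χ) ≤ ε X_i`, uniformly for `|t| ≤ T` (the number of all zeros with
  `|Im ρ| ≤ 1` is about `X_i / π`).

In particular this holds for the Dedekind zeta functions `ζ_H` of the Hilbert class fields `H` of all
imaginary quadratic fields `K`, with `X = h log |D_K| = log |D_H|`, as `|D_K| → ∞`; this case is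
stated separately.

Proof.  (0): The functional equation gives an approximate functional equation with polynomials of
length `√A / 3`; by the orthogonality of the characters the mean square of a polynomial is bounded
by the number of the pairs `(𝔞, 𝔟)` of ideals in the same ray class. Then
`𝔞 𝔟̄` (`𝔟̄` the conjugate ideal) is generated by some `β ≡ N(𝔟)` mod `(m)`, and `4 N(β) = t² + j² A` with
integers `t`, `j`, so that `β` is a rational integer if the norms are less than `√A / 3`.  The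
divisor bound, uniform in `K`, concludes.  (0) implies (3) on the line for the product by the
inequality of the arithmetic and geometric means, and this is equivalent to (1)-(4) by
`Pool.Agent.H465.PT.deg_tfae`.
-/

set_option autoImplicit false

open NumberField IsDedekindDomain

namespace Pool.Agent.Results.MP_3b6604_nt.ImaginaryQuadraticFamilies

section character
variable {K : Type} [Field K] [NumberField K]

/-- `K` is an imaginary quadratic field -/
def ImaginaryQuadratic (K : Type) [Field K] [NumberField K] : Prop :=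
  Module.finrank ℚ K = 2 ∧ IsTotallyComplex K

/-- `χ` is a primitive ray class character of finite conductor `𝔣` of the field `K` without real
places, as a completely multiplicative function on the ideals of `K` which is zero on the ideals not
prime to `𝔣`; for instance `𝔣 = 1` and `χ` a character of the class group. -/
structure IsPrimitive (𝔣 : Ideal (𝓞 K)) (χ : Ideal (𝓞 K) →*₀ ℂ) : Prop where
  ne_bot : 𝔣 ≠ ⊥
  supp : ∀ 𝔞 : Ideal (𝓞 K), 𝔞 ≠ ⊥ → (χ 𝔞 ≠ 0 ↔ IsCoprime 𝔞 𝔣)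
  ray : ∀ x : 𝓞 K, x ≠ 0 → x - 1 ∈ 𝔣 → χ (Ideal.span {x}) = 1
  prim : ∀ 𝔤 : Ideal (𝓞 K), 𝔤 ∣ 𝔣 → 𝔤 ≠ 𝔣 →
    ∃ x : 𝓞 K, x - 1 ∈ 𝔤 ∧ IsCoprime (Ideal.span {x}) 𝔣 ∧ χ (Ideal.span {x}) ≠ 1

/-- the class of a prime ideal in the class group -/
noncomputable def primeClass (v : HeightOneSpectrum (𝓞 K)) : ClassGroup (𝓞 K) :=
  ClassGroup.mk0 ⟨v.asIdeal, mem_nonZeroDivisors_iff_ne_zero.mpr v.ne_bot⟩

/-- The decomposition law of the Hilbert class field `H` of `K`, which determines `H`: above a prime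
ideal of `K` whose class has the order `f` there are `h / f` prime ideals of `H`, and the residue
degrees are equal to `f`. -/
structure IsHilbertClassField (K H : Type) [Field K] [NumberField K] [Field H] [NumberField H]
    [Algebra K H] : Prop where
  degree : ∀ (v : HeightOneSpectrum (𝓞 K)) (w : HeightOneSpectrum (𝓞 H)),
    w.asIdeal.comap (algebraMap (𝓞 K) (𝓞 H)) = v.asIdeal →
      Ideal.absNorm w.asIdeal = Ideal.absNorm v.asIdeal ^ orderOf (primeClass v)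
  number : ∀ v : HeightOneSpectrum (𝓞 K), orderOf (primeClass v) *
    Nat.card {w : HeightOneSpectrum (𝓞 H) // w.asIdeal.comap (algebraMap (𝓞 K) (𝓞 H)) =
      v.asIdeal} = Nat.card (ClassGroup (𝓞 K))

/-- `ζ` is the Dedekind zeta function of the number field `H`: it is given by the Euler product for
`Re s > 1`, and analytic outside the point `1` -/
structure IsZetaFunction (H : Type) [Field H] [NumberField H] (ζ : ℂ → ℂ) : Prop where
  euler : ∀ s : ℂ, 1 < s.re → HasProd (fun w : HeightOneSpectrum (𝓞 H) =>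
    (1 - ((Ideal.absNorm w.asIdeal : ℕ) : ℂ) ^ (-s))⁻¹) (ζ s)
  analytic : ∀ s : ℂ, s ≠ 1 → DifferentiableAt ℂ ζ s

/-- `|D_K| m²`, the conductor of `L(s, χ)` if `χ` has the conductor `(m)` -/
noncomputable def cond (K : Type) [Field K] [NumberField K] (m : ℕ) : ℝ :=
  |(discr K : ℝ)| * (m : ℝ) ^ 2

/-- `L` is the L-function of `χ`: it is given by the Euler product for `Re s > 1`, and analytic
outside the point `1` -/
structure IsLFunction (χ : Ideal (𝓞 K) →*₀ ℂ) (L : ℂ → ℂ) : Prop where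
  euler : ∀ s : ℂ, 1 < s.re → HasProd (fun v : HeightOneSpectrum (𝓞 K) =>
    (1 - χ v.asIdeal * ((Ideal.absNorm v.asIdeal : ℕ) : ℂ) ^ (-s))⁻¹) (L s)
  analytic : ∀ s : ℂ, s ≠ 1 → DifferentiableAt ℂ L s

end character

open Classical in
/-- The sum of `g(ρ)` over the nontrivial zeros `ρ` of `L`, i.e. the zeros in the strip
`0 < Re ρ < 1`, with multiplicity. -/
noncomputable def zeroSum (L : ℂ → ℂ) (g : ℂ → ℝ) : ℝ :=
  ∑ᶠ ρ : ℂ, if 0 < ρ.re ∧ ρ.re < 1 then (analyticOrderNatAt L ρ : ℝ) * g ρ else 0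

/-- The number of the nontrivial zeros in a set, with multiplicity. -/
noncomputable def count (L : ℂ → ℂ) (S : Set ℂ) : ℝ := zeroSum L (S.indicator fun _ => 1)

section character
variable {K : Type} [Field K] [NumberField K] {𝔣 : Ideal (𝓞 K)} {χ : Ideal (𝓞 K) →*₀ ℂ}

theorem IsPrimitive.conv (hK : IsTotallyComplex K) (h : IsPrimitive 𝔣 χ) :
    Pool.Agent.Y773.G.IsPrimChar K 𝔣 χ := by
  refine ⟨h.ne_bot, h.supp, fun x h1 h2 _ => h.ray x h1 h2, fun 𝔤 h1 h2 => ?_⟩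
  obtain ⟨x, h3, h4, h5⟩ := h.prim 𝔤 h1 h2
  exact ⟨x, h3, Pool.Agent.Y773.IQ.tpos_all _, h4, h5⟩

end character

/-- The conclusions for a family with product `𝓛_i` and size `X_i`. -/
structure Conclusions {ι : Type} (l : Filter ι) (𝓛 : ι → ℂ → ℂ) (X : ι → ℝ) : Prop where
  /-- almost all zeros are near the line -/
  near : ∀ T ε : ℝ, 0 < ε → ∀ᶠ i in l,
    count (𝓛 i) {ρ : ℂ | |ρ.im| ≤ T ∧ ε ≤ |ρ.re - 1 / 2|} ≤ ε * X i
  /-- equidistribution -/
  equidistribution : ∀ g : ℂ → ℝ, Continuous g → HasCompactSupport g →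
    Filter.Tendsto (fun i => zeroSum (𝓛 i) g / X i) l
      (nhds (1 / (2 * Real.pi) * ∫ t : ℝ, g (1 / 2 + t * Complex.I)))
  /-- Lindelöf hypothesis -/
  lindelof : ∀ T ε : ℝ, 0 < ε → ∀ᶠ i in l, ∀ s : ℂ, 1 / 2 ≤ s.re → ‖s‖ ≤ T → ε ≤ ‖s - 1‖ →
    ‖𝓛 i s‖ ≤ Real.exp (ε * X i)
  /-- the logarithm is small on average -/
  logarithm : ∀ T ε : ℝ, 0 < ε → ∀ᶠ i in l,
    ∫ s in {s : ℂ | 1 / 2 ≤ s.re ∧ ‖s‖ ≤ T}, |Real.log ‖𝓛 i s‖| ≤ ε * X i


lemma Conclusions.congr {ι : Type} {l : Filter ι} {𝓛 𝓜 : ι → ℂ → ℂ} {X : ι → ℝ}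
    (h : Conclusions l 𝓛 X) (he : ∀ i, ∀ s : ℂ, s ≠ 1 → 𝓛 i s = 𝓜 i s) : Conclusions l 𝓜 X := by
  have hz : ∀ i g, zeroSum (𝓛 i) g = zeroSum (𝓜 i) g := by
    intro i g
    unfold zeroSum
    refine finsum_congr fun ρ => ?_
    by_cases hρ : 0 < ρ.re ∧ ρ.re < 1
    · rw [if_pos hρ, if_pos hρ]
      have h1 : ρ ≠ 1 := by
        rintro rfl
        simp at hρ
      have h2 : 𝓛 i =ᶠ[nhds ρ] 𝓜 i := by
        filter_upwards [isOpen_ne.mem_nhds h1] with s hs
        exact he i s hs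
      unfold analyticOrderNatAt
      rw [analyticOrderAt_congr h2]
    · rw [if_neg hρ, if_neg hρ]
  refine ⟨fun T ε hε => ?_, fun g h1 h2 => ?_, fun T ε hε => ?_, fun T ε hε => ?_⟩
  · have := h.near T ε hε
    unfold count at this ⊢
    simpa only [hz] using this
  · simpa only [hz] using h.equidistribution g h1 h2
  · filter_upwards [h.lindelof T ε hε] with i hi s h1 h2 h3
    rw [← he i s]
    · exact hi s h1 h2 h3
    · rintro rfl
      rw [sub_self, norm_zero] at h3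
      linarith
  · filter_upwards [h.logarithm T ε hε] with i hi
    refine le_trans (le_of_eq ?_) hi
    refine MeasureTheory.integral_congr_ae ?_
    have h0 : ∀ᵐ s : ℂ, s ≠ 1 := by
      rw [MeasureTheory.ae_iff]
      simp
    filter_upwards [MeasureTheory.ae_restrict_of_ae h0] with s hs
    rw [he i s hs]

/-- The theorem for families of characters. -/
theorem family {ι : Type} (l : Filter ι) (K : ι → Type) [∀ i, Field (K i)]
    [∀ i, NumberField (K i)] (m : ι → ℕ) (Ψ : ∀ i, Finset (Ideal (𝓞 (K i)) →*₀ ℂ))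
    (L : ∀ i, (Ideal (𝓞 (K i)) →*₀ ℂ) → ℂ → ℂ)
    (hK : ∀ i, ImaginaryQuadratic (K i)) (hm : ∀ i, 1 ≤ m i) (hne : ∀ i, (Ψ i).Nonempty)
    (hΨ : ∀ i, ∀ χ ∈ Ψ i, IsPrimitive (Ideal.span {(m i : 𝓞 (K i))}) χ)
    (hL : ∀ i, ∀ χ ∈ Ψ i, IsLFunction χ (L i χ))
    (hA : Filter.Tendsto (fun i => cond (K i) (m i)) l Filter.atTop)
    (hr : Filter.Tendsto (fun i => Real.log (classNumber (K i) * (m i : ℝ) ^ 2 / (Ψ i).card) /
      Real.log (cond (K i) (m i))) l (nhds 0)) :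
    (∀ T ε : ℝ, 0 < ε → ∀ᶠ i in l, ∀ t : ℝ, |t| ≤ T →
      ∑ χ ∈ Ψ i, ‖L i χ (1 / 2 + t * Complex.I)‖ ^ 2 ≤ (Ψ i).card * cond (K i) (m i) ^ ε) ∧
    Conclusions l (fun i s => ∏ χ ∈ Ψ i, L i χ s)
      (fun i => (Ψ i).card * Real.log (cond (K i) (m i))) ∧
    (∀ T ε : ℝ, 0 < ε → ∀ᶠ i in l, ∀ t : ℝ, |t| ≤ T →
      ((∑ χ ∈ Ψ i, analyticOrderNatAt (L i χ) (1 / 2 + t * Complex.I) : ℕ) : ℝ) ≤
        ε * ((Ψ i).card * Real.log (cond (K i) (m i)))) ∧
    (∀ T ε : ℝ, 0 < ε → ∀ᶠ i in l, ∀ t : ℝ, |t| ≤ T →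
      (analyticOrderNatAt (fun s => ∏ χ ∈ Ψ i, L i χ s) (1 / 2 + t * Complex.I) : ℝ) ≤
        ε * ((Ψ i).card * Real.log (cond (K i) (m i)))) := by
  haveI : ∀ i, IsTotallyComplex (K i) := fun i => (hK i).2
  have hp : ∀ t : ℝ, Pool.Agent.H465.EQ.pt t = 1 / 2 + t * Complex.I := by
    intro t
    apply Complex.ext <;> simp [Pool.Agent.H465.EQ.pt]
  have hdat : ∀ i, ∀ ψ ∈ Ψ i, ∃ (k : ℕ) (μ : (K i →+* ℂ) → ℝ) (Λ F : ℂ → ℂ),
      Pool.Agent.H465.CG.HM ψ k 1 μ (Pool.Agent.H465.CG.AA (K i) (m i)) Λ F := fun i ψ hψ =>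
    Pool.Agent.H465.CG.prim_data (hK i).1 ((hΨ i ψ hψ).conv (hK i).2)
  have hcl : ∀ i, (Nat.card (ClassGroup (𝓞 (K i))) : ℝ) = classNumber (K i) := fun i => by
    rw [Nat.card_eq_fintype_card]
    rfl
  have hF : Pool.Agent.H465.CG.FamH l K m Ψ L 1 := by
    refine ⟨zero_le_one, fun i => (hK i).1, hm, hne, fun i ψ hψ => (hΨ i ψ hψ).supp,
      fun i ψ hψ ψ' hψ' x hx hx1 => ?_, hdat, fun i ψ hψ => ?_, hA, ?_⟩
    · exact Pool.Agent.H465.CG.prim_agree ((hΨ i ψ hψ).conv (hK i).2)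
        ((hΨ i ψ' hψ').conv (hK i).2) x hx hx1
    · obtain ⟨k, μ, Λ, F, hd⟩ := hdat i ψ hψ
      exact Pool.Agent.H465.PT.cont_of_prod hd.le (hL i ψ hψ).analytic (hL i ψ hψ).euler
    · simp only [hcl]
      exact hr
  have h0 := fun T ε hε => Pool.Agent.H465.CG.fam_ms hF (T := T) (ε := ε) hε
  obtain ⟨h1, h2, h3, -, h5, h6, h7⟩ := Pool.Agent.H465.CG.fam Pool.Agent.H97.CGSOrd.tSOrd hF
  simp only [hp] at h0 h2 h6 h7
  refine ⟨h0, ⟨h1, h2, fun T ε hε => ?_, h5⟩, h6, h7⟩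
  filter_upwards [h3 T ε hε] with i hi s s1 s2 s3
  rw [mul_comm ε]
  exact hi s s1 s2 s3


/-- The theorem for Hilbert class fields. -/
theorem hilbert {ι : Type} (l : Filter ι) (K H : ι → Type) [∀ i, Field (K i)]
    [∀ i, NumberField (K i)] [∀ i, Field (H i)] [∀ i, NumberField (H i)] [∀ i, Algebra (K i) (H i)]
    (ζ : ι → ℂ → ℂ) (hK : ∀ i, ImaginaryQuadratic (K i))
    (hH : ∀ i, IsHilbertClassField (K i) (H i)) (hζ : ∀ i, IsZetaFunction (H i) (ζ i))
    (hA : Filter.Tendsto (fun i => |(discr (K i) : ℝ)|) l Filter.atTop) :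
    Conclusions l ζ (fun i => classNumber (K i) * Real.log |(discr (K i) : ℝ)|) ∧
    (∀ T ε : ℝ, 0 < ε → ∀ᶠ i in l, ∀ t : ℝ, |t| ≤ T →
      (analyticOrderNatAt (ζ i) (1 / 2 + t * Complex.I) : ℝ) ≤
        ε * (classNumber (K i) * Real.log |(discr (K i) : ℝ)|)) := by
  classical
  haveI : ∀ i, IsTotallyComplex (K i) := fun i => (hK i).2
  choose Ψ hΨ hcard hf using fun i => Pool.Agent.H894.CG.sUnr (K i)
  have hcl : ∀ i, Nat.card (ClassGroup (𝓞 (K i))) = classNumber (K i) := fun i =>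
    Nat.card_eq_fintype_card
  have hone : ∀ i, ∀ 𝔞 : Ideal (𝓞 (K i)), 𝔞 ≠ ⊥ → Pool.Agent.Y772.NZ.one (K i) 𝔞 = 1 :=
    fun i 𝔞 h => Pool.Agent.Y772.NZ.one_ne (K i) h
  have hc : ∀ i, ∀ χ : Ideal (𝓞 (K i)) →*₀ ℂ, ∃ L : ℂ → ℂ, χ ∈ Ψ i → IsLFunction χ L := by
    intro i χ
    by_cases h : χ ∈ Ψ i
    · obtain ⟨L, hL⟩ := Pool.Agent.H465.PT.cont_exists ((hΨ i χ).1 h)
      obtain ⟨k, e, Λ, F, hd⟩ := Pool.Agent.H465.PT.hd_all ((hΨ i χ).1 h)
      refine ⟨L, fun _ => ⟨fun s hs => ?_, hL.dif⟩⟩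
      rw [hL.ser s hs]
      exact Pool.Agent.H465.PT.LI_prod hd.le hs
    · exact ⟨0, fun h' => absurd h' h⟩
  choose L hL using hc
  have htop : ∀ i, Ideal.span {((1 : ℕ) : 𝓞 (K i))} = ⊤ := fun i => by
    rw [Nat.cast_one, Ideal.span_singleton_one]
  have hne : ∀ i, (Ψ i).Nonempty := fun i => by
    rw [← Finset.card_pos, hcard i]
    exact Nat.card_pos
  have hcond : ∀ i, cond (K i) 1 = |(discr (K i) : ℝ)| := fun i => by
    unfold cond
    rw [Nat.cast_one, one_pow, mul_one]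
  have hx : ∀ i, ((Ψ i).card : ℝ) * Real.log (cond (K i) 1) =
      classNumber (K i) * Real.log |(discr (K i) : ℝ)| := fun i => by
    rw [hcond, hcard, hcl]
  have hpr : ∀ i, ∀ χ ∈ Ψ i, IsPrimitive (Ideal.span {((1 : ℕ) : 𝓞 (K i))}) χ := by
    intro i χ hχ
    rw [htop]
    have h := (hΨ i χ).1 hχ
    refine ⟨h.ne_bot, h.supp, fun x h1 h2 => h.ray x h1 h2 (Pool.Agent.Y773.IQ.tpos_all _),
      fun 𝔤 h1 h2 => ?_⟩
    exact absurd (top_le_iff.1 (Ideal.le_of_dvd h1)) h2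
  obtain ⟨-, h2, -, h4⟩ := family l K (fun _ => 1) Ψ L hK (fun _ => le_rfl) hne hpr
    (fun i χ hχ => hL i χ hχ) (by simpa only [hcond] using hA) (by
      refine Filter.Tendsto.congr (f₁ := fun _ => (0 : ℝ)) (fun i => ?_) tendsto_const_nhds
      have h5 : (classNumber (K i) : ℝ) ≠ 0 := by
        rw [← hcl i]
        exact_mod_cast Nat.card_pos.ne'
      rw [hcard i, hcl i, Nat.cast_one, one_pow, mul_one, div_self h5, Real.log_one, zero_div])
  have heq : ∀ i, ∀ s : ℂ, s ≠ 1 → ∏ χ ∈ Ψ i, L i χ s = ζ i s := by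
    intro i s hs
    have hnorm : ∀ 𝔞, ‖Pool.Agent.Y772.NZ.one (K i) 𝔞‖ ≤ 1 :=
      Pool.Agent.Y772.NZ.one_norm (K i)
    refine Pool.Agent.H465.CG.prod_eq (H := H i) (θ := fun _ => 1)
      ⟨(hH i).degree, (hH i).number⟩ le_rfl (fun 𝔞 h => ?_) hnorm
      (hf i _ (hone i)) (fun v w _ => ?_) (hζ i).analytic (fun s hs => ?_)
      (fun χ hχ => ?_) hs
    · rw [hone i 𝔞 h, htop]
      simp only [ne_eq, one_ne_zero, not_false_eq_true, true_iff]
      rw [Ideal.isCoprime_iff_sup_eq]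
      exact sup_top_eq _
    · rw [hone i _ v.ne_bot, one_pow]
    · simp only [one_mul]
      exact (hζ i).euler s hs
    · obtain ⟨k, e, Λ, F, hd⟩ := Pool.Agent.H465.PT.hd_all ((hΨ i χ).1 hχ)
      exact Pool.Agent.H465.PT.cont_of_prod hd.le (hL i χ hχ).analytic (hL i χ hχ).euler
  simp only [hx] at h2 h4
  refine ⟨h2.congr heq, fun T ε hε => ?_⟩
  filter_upwards [h4 T ε hε] with i hi t ht
  have h6 : (1 / 2 + t * Complex.I : ℂ) ≠ 1 := by
    intro h
    have := congrArg Complex.re h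
    norm_num at this
  have h7 : (fun s => ∏ χ ∈ Ψ i, L i χ s) =ᶠ[nhds (1 / 2 + t * Complex.I)] ζ i := by
    filter_upwards [isOpen_ne.mem_nhds h6] with s hs
    exact heq i s hs
  have h8 := hi t ht
  unfold analyticOrderNatAt at h8 ⊢
  rwa [analyticOrderAt_congr h7] at h8


/-- **Main theorem.** First for families of ray class characters of imaginary quadratic fields, then
for the Dedekind zeta functions of the Hilbert class fields of imaginary quadratic fields. -/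
theorem result :
    (∀ (ι : Type) (l : Filter ι) (K : ι → Type) [∀ i, Field (K i)] [∀ i, NumberField (K i)]
      (m : ι → ℕ) (Ψ : ∀ i, Finset (Ideal (𝓞 (K i)) →*₀ ℂ))
      (L : ∀ i, (Ideal (𝓞 (K i)) →*₀ ℂ) → ℂ → ℂ),
      (∀ i, ImaginaryQuadratic (K i)) → (∀ i, 1 ≤ m i) → (∀ i, (Ψ i).Nonempty) →
      (∀ i, ∀ χ ∈ Ψ i, IsPrimitive (Ideal.span {(m i : 𝓞 (K i))}) χ) →
      (∀ i, ∀ χ ∈ Ψ i, IsLFunction χ (L i χ)) →
      Filter.Tendsto (fun i => cond (K i) (m i)) l Filter.atTop →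
      Filter.Tendsto (fun i => Real.log (classNumber (K i) * (m i : ℝ) ^ 2 / (Ψ i).card) /
        Real.log (cond (K i) (m i))) l (nhds 0) →
      -- the mean square
      (∀ T ε : ℝ, 0 < ε → ∀ᶠ i in l, ∀ t : ℝ, |t| ≤ T →
        ∑ χ ∈ Ψ i, ‖L i χ (1 / 2 + t * Complex.I)‖ ^ 2 ≤ (Ψ i).card * cond (K i) (m i) ^ ε) ∧
      -- the zeros and the Lindelöf hypothesis for the product
      Conclusions l (fun i s => ∏ χ ∈ Ψ i, L i χ s)
        (fun i => (Ψ i).card * Real.log (cond (K i) (m i))) ∧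
      -- the multiplicities
      (∀ T ε : ℝ, 0 < ε → ∀ᶠ i in l, ∀ t : ℝ, |t| ≤ T →
        ((∑ χ ∈ Ψ i, analyticOrderNatAt (L i χ) (1 / 2 + t * Complex.I) : ℕ) : ℝ) ≤
          ε * ((Ψ i).card * Real.log (cond (K i) (m i))))) ∧
    (∀ (ι : Type) (l : Filter ι) (K H : ι → Type) [∀ i, Field (K i)] [∀ i, NumberField (K i)]
      [∀ i, Field (H i)] [∀ i, NumberField (H i)] [∀ i, Algebra (K i) (H i)] (ζ : ι → ℂ → ℂ),
      (∀ i, ImaginaryQuadratic (K i)) → (∀ i, IsHilbertClassField (K i) (H i)) →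
      (∀ i, IsZetaFunction (H i) (ζ i)) →
      Filter.Tendsto (fun i => |(discr (K i) : ℝ)|) l Filter.atTop →
      Conclusions l ζ (fun i => classNumber (K i) * Real.log |(discr (K i) : ℝ)|) ∧
      (∀ T ε : ℝ, 0 < ε → ∀ᶠ i in l, ∀ t : ℝ, |t| ≤ T →
        (analyticOrderNatAt (ζ i) (1 / 2 + t * Complex.I) : ℝ) ≤
          ε * (classNumber (K i) * Real.log |(discr (K i) : ℝ)|))) := by
  refine ⟨?_, ?_⟩
  · intro ι l K _ _ m Ψ L h1 h2 h3 h4 h5 h6 h7
    obtain ⟨a, b, c, -⟩ := family l K m Ψ L h1 h2 h3 h4 h5 h6 h7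
    exact ⟨a, b, c⟩
  · intro ι l K H _ _ _ _ _ ζ h1 h2 h3 h4
    exact hilbert l K H ζ h1 h2 h3 h4

end Pool.Agent.Results.MP_3b6604_nt.ImaginaryQuadraticFamilies
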