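import Pool.Agent.H465.CG.Cen2
import Pool.Agent.H465.CG.Hilb

/-!
# Leading coefficients on the critical line for almost all class group characters

Let `K` be an imaginary quadratic field, `h` its class number, `m ≥ 1`, and `A = |D_K| m²`.  The
primitive ray class characters `χ` of `K` of conductor `(m)` are by class field theory characters of
Galois groups, and `L(s, χ)` is the Artin L-function of the representation of degree 2 of
`Gal(ℚ̄/ℚ)` induced by `χ`; for `m = 1` these are the L-functions of the generalized dihedral group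
`Gal(H/ℚ)`, `H` the Hilbert class field, and `∏_χ L(s, χ) = ζ_H(s)`.

We consider families: `K_i`, `m_i` vary with `A_i → ∞` (for instance `m_i = 1` and
`|D_{K_i}| → ∞`), and `Ψ_i` is a set of primitive characters of conductor `(m_i)` of `K_i` which is
not too small, `#Ψ_i ≥ h_i m_i² A_i^(-o(1))`; for instance all `h_i` characters of the class group.
For an L-function `L` and a point `c` let `L^*(c)` be the leading coefficient of the expansion of
`L` at `c` (the value `L(c)`, if it is not zero), and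
`N_δ(L, c) = ∑ log (δ / |ρ - c|)`, the sum over the zeros `ρ` with `0 < |ρ - c| < δ`.  We prove
without any hypothesis:

(A) **Almost all characters.**  There are sets `E_i ⊆ Ψ_i` with `#E_i / #Ψ_i → 0` such that for
all `T, δ, ε > 0` and every continuous function `g` with compact support, all characters
`χ ∈ Ψ_i` outside of `E_i` have the following properties, if `i` is large: with `X = log A_i`,

* at most `ε X` zeros of `L(s, χ)` with `|Im ρ| ≤ T` have the distance `≥ ε` from the critical line;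
* the zeros are equidistributed: `|∑ g(ρ) - (X / 2π) ∫ g(1/2 + it) dt| ≤ ε X`;
* the Lindelöf hypothesis: `|L(s, χ)| ≤ A_i^ε` if `Re s ≥ 1/2`, `|s| ≤ T`, `|s - 1| ≥ ε`;
* `∫ |log |L(s, χ)|| ≤ ε X` over `Re s ≥ 1/2`, `|s| ≤ T`;
* **the law for the leading coefficient** at all points `c = 1/2 + it`, `|t| ≤ T`, in particular at
  the central point: `|log |L^*(c, χ)| + N_δ(L(·, χ), c) - (δ / π) X| ≤ ε X`;
* the order of `L(s, χ)` at these points is at most `ε X`.

(B) The law for the product `P_i` of the `L(s, χ)`, `χ ∈ Ψ_i`, with `X_i = #Ψ_i log A_i`: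
`|log |P_i^*(c)| + N_δ(P_i, c) - (δ / π) X_i| ≤ ε X_i` for `c = 1/2 + it`, `|t| ≤ T`.  Hence
`|P_i^*(c)| ≤ exp(ε X_i)`, and `|P_i^*(c)| = exp(o(X_i))` if and only if the zeros do not accumulate
at `c`, in the sense that for every `ε` there is a `δ` with `N_δ(P_i, c) ≤ ε X_i` finally.

(C) The law for the Dedekind zeta functions `ζ_H` of the Hilbert class fields `H` of all imaginary
quadratic fields `K`, with `X = h log |D_K| = log |D_H|`, as `|D_K| → ∞`.

Proof.  The Lindelöf hypothesis for the product, which was proved in `ImaginaryQuadraticFamilies` by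
a mean square, implies that almost all zeros of the product are near the line.  Hence this holds
for the individual `L(s, χ)` if `χ` is not in a small set `E_i`, and it implies all other properties
by `Pool.Agent.H465.PT.deg_tfae`, applied to the family of the L-functions of degree 2 of all pairs
`(i, χ)`, `χ ∈ Ψ_i`, `χ ∉ E_i`.
The law: Jensen's formula with the leading coefficient, integrated over the circles about `c` of
radius less than `δ₁`, expresses `log |L^*(c)| + N_{δ₁}` by the mean of `log |Λ|` over a disc up to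
the number of the zeros in the disc, which is small if `δ₁` is small; the mean is estimated by the
convergence of `log |Λ| / X` to `|Re s - 1/2| / 2 + 1/4` in the mean; and the difference of
`N_δ` and `N_{δ₁}` is the sum of the values of a continuous function at the zeros.
-/

set_option autoImplicit false

open NumberField IsDedekindDomain

namespace Pool.Agent.Results.MP_3b6604_nt.LeadingCoefficients

section character
variable {K : Type} [Field K] [NumberField K]

/-- `K` is an imaginary quadratic field -/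
def ImaginaryQuadratic (K : Type) [Field K] [NumberField K] : Prop :=
  Module.finrank ℚ K = 2 ∧ IsTotallyComplex K

/-- `χ` is a primitive ray class character of finite conductor `𝔣` of the field `K` without real
places, as a completely multiplicative function on the ideals of `K` which is zero on the ideals not
prime to `𝔣`; for instance `𝔣 = 1` and `χ` a character of the class group. -/
structure IsPrimitive (𝔣 : Ideal (𝓞 K)) (χ : Ideal (𝓞 K) →*₀ ℂ) : Prop where
  ne_bot : 𝔣 ≠ ⊥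
  supp : ∀ 𝔞 : Ideal (𝓞 K), 𝔞 ≠ ⊥ → (χ 𝔞 ≠ 0 ↔ IsCoprime 𝔞 𝔣)
  ray : ∀ x : 𝓞 K, x ≠ 0 → x - 1 ∈ 𝔣 → χ (Ideal.span {x}) = 1
  prim : ∀ 𝔤 : Ideal (𝓞 K), 𝔤 ∣ 𝔣 → 𝔤 ≠ 𝔣 →
    ∃ x : 𝓞 K, x - 1 ∈ 𝔤 ∧ IsCoprime (Ideal.span {x}) 𝔣 ∧ χ (Ideal.span {x}) ≠ 1

/-- the class of a prime ideal in the class group -/
noncomputable def primeClass (v : HeightOneSpectrum (𝓞 K)) : ClassGroup (𝓞 K) :=
  ClassGroup.mk0 ⟨v.asIdeal, mem_nonZeroDivisors_iff_ne_zero.mpr v.ne_bot⟩

/-- The decomposition law of the Hilbert class field `H` of `K`, which determines `H`: above a prime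
ideal of `K` whose class has the order `f` there are `h / f` prime ideals of `H`, and the residue
degrees are equal to `f`. -/
structure IsHilbertClassField (K H : Type) [Field K] [NumberField K] [Field H] [NumberField H]
    [Algebra K H] : Prop where
  degree : ∀ (v : HeightOneSpectrum (𝓞 K)) (w : HeightOneSpectrum (𝓞 H)),
    w.asIdeal.comap (algebraMap (𝓞 K) (𝓞 H)) = v.asIdeal →
      Ideal.absNorm w.asIdeal = Ideal.absNorm v.asIdeal ^ orderOf (primeClass v)
  number : ∀ v : HeightOneSpectrum (𝓞 K), orderOf (primeClass v) *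
    Nat.card {w : HeightOneSpectrum (𝓞 H) // w.asIdeal.comap (algebraMap (𝓞 K) (𝓞 H)) =
      v.asIdeal} = Nat.card (ClassGroup (𝓞 K))

/-- `ζ` is the Dedekind zeta function of the number field `H`: it is given by the Euler product for
`Re s > 1`, and analytic outside the point `1` -/
structure IsZetaFunction (H : Type) [Field H] [NumberField H] (ζ : ℂ → ℂ) : Prop where
  euler : ∀ s : ℂ, 1 < s.re → HasProd (fun w : HeightOneSpectrum (𝓞 H) =>
    (1 - ((Ideal.absNorm w.asIdeal : ℕ) : ℂ) ^ (-s))⁻¹) (ζ s)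
  analytic : ∀ s : ℂ, s ≠ 1 → DifferentiableAt ℂ ζ s

/-- `|D_K| m²`, the conductor of `L(s, χ)` if `χ` has the conductor `(m)` -/
noncomputable def cond (K : Type) [Field K] [NumberField K] (m : ℕ) : ℝ :=
  |(discr K : ℝ)| * (m : ℝ) ^ 2

/-- `L` is the L-function of `χ`: it is given by the Euler product for `Re s > 1`, and analytic
outside the point `1` -/
structure IsLFunction (χ : Ideal (𝓞 K) →*₀ ℂ) (L : ℂ → ℂ) : Prop where
  euler : ∀ s : ℂ, 1 < s.re → HasProd (fun v : HeightOneSpectrum (𝓞 K) =>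
    (1 - χ v.asIdeal * ((Ideal.absNorm v.asIdeal : ℕ) : ℂ) ^ (-s))⁻¹) (L s)
  analytic : ∀ s : ℂ, s ≠ 1 → DifferentiableAt ℂ L s

end character

open Classical in
/-- The sum of `g(ρ)` over the nontrivial zeros `ρ` of `L`, i.e. the zeros in the strip
`0 < Re ρ < 1`, with multiplicity. -/
noncomputable def zeroSum (L : ℂ → ℂ) (g : ℂ → ℝ) : ℝ :=
  ∑ᶠ ρ : ℂ, if 0 < ρ.re ∧ ρ.re < 1 then (analyticOrderNatAt L ρ : ℝ) * g ρ else 0

/-- The number of the nontrivial zeros in a set, with multiplicity. -/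
noncomputable def count (L : ℂ → ℂ) (S : Set ℂ) : ℝ := zeroSum L (S.indicator fun _ => 1)

section character
variable {K : Type} [Field K] [NumberField K] {𝔣 : Ideal (𝓞 K)} {χ : Ideal (𝓞 K) →*₀ ℂ}

theorem IsPrimitive.conv (hK : IsTotallyComplex K) (h : IsPrimitive 𝔣 χ) :
    Pool.Agent.Y773.G.IsPrimChar K 𝔣 χ := by
  refine ⟨h.ne_bot, h.supp, fun x h1 h2 _ => h.ray x h1 h2, fun 𝔤 h1 h2 => ?_⟩
  obtain ⟨x, h3, h4, h5⟩ := h.prim 𝔤 h1 h2
  exact ⟨x, h3, Pool.Agent.Y773.IQ.tpos_all _, h4, h5⟩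

end character

/-- the leading coefficient of the expansion of `L` at `c`: if `L(s) = (s - c)^n f(s)` with
`f(c) ≠ 0`, this is `f(c)` -/
noncomputable def lead (L : ℂ → ℂ) (c : ℂ) : ℂ := meromorphicTrailingCoeffAt L c

open Classical in
/-- the sum of `log (δ / |ρ - c|)` over the nontrivial zeros `ρ ≠ c` with `|ρ - c| < δ` -/
noncomputable def nearSum (L : ℂ → ℂ) (c : ℂ) (δ : ℝ) : ℝ :=
  zeroSum L fun ρ => if ρ ≠ c ∧ ‖ρ - c‖ < δ then Real.log (δ / ‖ρ - c‖) else 0

/-- The properties of the individual L-function `L` of conductor `exp X`. -/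
structure Individual (T δ ε : ℝ) (g : ℂ → ℝ) (X : ℝ) (L : ℂ → ℂ) : Prop where
  /-- few zeros are off the line -/
  near : count L {ρ : ℂ | |ρ.im| ≤ T ∧ ε ≤ |ρ.re - 1 / 2|} ≤ ε * X
  /-- equidistribution -/
  equidistribution : |zeroSum L g - X / (2 * Real.pi) * ∫ t : ℝ, g (1 / 2 + t * Complex.I)| ≤ ε * X
  /-- Lindelöf hypothesis -/
  lindelof : ∀ s : ℂ, 1 / 2 ≤ s.re → ‖s‖ ≤ T → ε ≤ ‖s - 1‖ → ‖L s‖ ≤ Real.exp (ε * X)
  /-- the logarithm is small on average -/
  logarithm : ∫ s in {s : ℂ | 1 / 2 ≤ s.re ∧ ‖s‖ ≤ T}, |Real.log ‖L s‖| ≤ ε * X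
  /-- the law for the leading coefficient -/
  law : ∀ t : ℝ, |t| ≤ T → |Real.log ‖lead L (1 / 2 + t * Complex.I)‖ +
    nearSum L (1 / 2 + t * Complex.I) δ - δ / Real.pi * X| ≤ ε * X
  /-- the order of vanishing -/
  order : ∀ t : ℝ, |t| ≤ T → (analyticOrderNatAt L (1 / 2 + t * Complex.I) : ℝ) ≤ ε * X

/-- The law for the leading coefficients of the functions `P_i` with the sizes `X_i`. -/
structure Law {ι : Type} (l : Filter ι) (P : ι → ℂ → ℂ) (X : ι → ℝ) : Prop where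
  /-- the law -/
  law : ∀ T δ ε : ℝ, 0 < δ → 0 < ε → ∀ᶠ i in l, ∀ t : ℝ, |t| ≤ T →
    |Real.log ‖lead (P i) (1 / 2 + t * Complex.I)‖ +
      nearSum (P i) (1 / 2 + t * Complex.I) δ - δ / Real.pi * X i| ≤ ε * X i
  /-- the upper bound -/
  upper : ∀ T ε : ℝ, 0 < ε → ∀ᶠ i in l, ∀ t : ℝ, |t| ≤ T →
    ‖lead (P i) (1 / 2 + t * Complex.I)‖ ≤ Real.exp (ε * X i)
  /-- the lower bound and the zeros -/
  lower : ∀ t : ℝ,
    (∀ ε : ℝ, 0 < ε → ∀ᶠ i in l,
      Real.exp (-(ε * X i)) ≤ ‖lead (P i) (1 / 2 + t * Complex.I)‖) ↔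
    (∀ ε : ℝ, 0 < ε → ∃ δ : ℝ, 0 < δ ∧ ∀ᶠ i in l,
      nearSum (P i) (1 / 2 + t * Complex.I) δ ≤ ε * X i)

lemma lk_if {δ : ℝ} (hδ : 0 < δ) (w : ℂ) [Decidable (w ≠ 0 ∧ ‖w‖ < δ)] :
    Pool.Agent.H465.EQ.lk δ w = if w ≠ 0 ∧ ‖w‖ < δ then Real.log (δ / ‖w‖) else 0 := by
  split_ifs with h
  · rw [Pool.Agent.H465.EQ.lk_near h.1 h.2.le, div_eq_mul_inv]
  · by_cases h0 : w = 0
    · subst h0
      unfold Pool.Agent.H465.EQ.lk
      simp
    · refine Pool.Agent.H465.EQ.lk_far hδ.le ?_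
      by_contra h1
      exact h ⟨h0, not_le.1 h1⟩

lemma nearSum_eq {L : ℂ → ℂ} {c : ℂ} {δ : ℝ} (hδ : 0 < δ) :
    nearSum L c δ = Pool.Agent.H465.PT.zs L fun ρ => Pool.Agent.H465.EQ.lk δ (ρ - c) := by
  classical
  unfold nearSum
  have e : ∀ ρ : ℂ, (if ρ ≠ c ∧ ‖ρ - c‖ < δ then Real.log (δ / ‖ρ - c‖) else 0) =
      Pool.Agent.H465.EQ.lk δ (ρ - c) := by
    intro ρ
    rw [lk_if hδ]
    simp only [ne_eq, sub_eq_zero]
  simp only [e]
  rfl

lemma nearSum_nonneg (L : ℂ → ℂ) (c : ℂ) {δ : ℝ} (hδ : 0 < δ) : 0 ≤ nearSum L c δ := by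
  rw [nearSum_eq hδ]
  unfold Pool.Agent.H465.PT.zs
  refine finsum_nonneg fun ρ => ?_
  split_ifs
  · exact mul_nonneg (Nat.cast_nonneg _) (Pool.Agent.H465.EQ.lk_nonneg _ _)
  · exact le_rfl

lemma hp (t : ℝ) : Pool.Agent.H465.EQ.pt t = 1 / 2 + t * Complex.I := by
  apply Complex.ext <;> simp [Pool.Agent.H465.EQ.pt]

/-- the bounds from the law -/
theorem Law.of {ι : Type} {l : Filter ι} {P : ι → ℂ → ℂ} {X : ι → ℝ}
    (hX : ∀ᶠ i in l, 0 < X i) (hne : ∀ i, ∀ t : ℝ, lead (P i) (1 / 2 + t * Complex.I) ≠ 0)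
    (h : ∀ T δ ε : ℝ, 0 < δ → 0 < ε → ∀ᶠ i in l, ∀ t : ℝ, |t| ≤ T →
      |Real.log ‖lead (P i) (1 / 2 + t * Complex.I)‖ +
        nearSum (P i) (1 / 2 + t * Complex.I) δ - δ / Real.pi * X i| ≤ ε * X i) : Law l P X := by
  have hpi := Real.pi_gt_three
  refine ⟨h, fun T ε hε => ?_, fun t => ⟨fun h1 ε hε => ?_, fun h1 ε hε => ?_⟩⟩
  · filter_upwards [h T (ε / 2) (ε / 2) (by positivity) (by positivity), hX] with i hi hXi t ht
    have h2 := (abs_le.1 (hi t ht)).2
    have h3 := nearSum_nonneg (P i) (1 / 2 + t * Complex.I) (show 0 < ε / 2 by positivity)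
    have h4 : ε / 2 / Real.pi * X i ≤ ε / 2 * X i :=
      mul_le_mul_of_nonneg_right (div_le_self (by positivity) (by linarith)) hXi.le
    rw [← Real.log_le_iff_le_exp (norm_pos_iff.2 (hne i t))]
    linarith
  · refine ⟨ε / 3, by positivity, ?_⟩
    filter_upwards [h |t| (ε / 3) (ε / 3) (by positivity) (by positivity), h1 (ε / 3)
      (by positivity), hX] with i hi h2 hXi
    have h3 := (abs_le.1 (hi t le_rfl)).2
    rw [← Real.le_log_iff_exp_le (norm_pos_iff.2 (hne i t))] at h2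
    have h4 : ε / 3 / Real.pi * X i ≤ ε / 3 * X i :=
      mul_le_mul_of_nonneg_right (div_le_self (by positivity) (by linarith)) hXi.le
    linarith
  · obtain ⟨δ, hδ, h2⟩ := h1 (ε / 2) (by positivity)
    filter_upwards [h |t| δ (ε / 2) hδ (by positivity), h2, hX] with i hi h3 hXi
    have h4 := (abs_le.1 (hi t le_rfl)).1
    rw [← Real.le_log_iff_exp_le (norm_pos_iff.2 (hne i t))]
    have h5 : 0 ≤ δ / Real.pi * X i := by positivity
    linarith

/-- The theorem for families of characters. -/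
theorem family {ι : Type} (l : Filter ι) (K : ι → Type) [∀ i, Field (K i)]
    [∀ i, NumberField (K i)] (m : ι → ℕ) (Ψ : ∀ i, Finset (Ideal (𝓞 (K i)) →*₀ ℂ))
    (L : ∀ i, (Ideal (𝓞 (K i)) →*₀ ℂ) → ℂ → ℂ)
    (hK : ∀ i, ImaginaryQuadratic (K i)) (hm : ∀ i, 1 ≤ m i) (hne : ∀ i, (Ψ i).Nonempty)
    (hΨ : ∀ i, ∀ χ ∈ Ψ i, IsPrimitive (Ideal.span {(m i : 𝓞 (K i))}) χ)
    (hL : ∀ i, ∀ χ ∈ Ψ i, IsLFunction χ (L i χ))
    (hA : Filter.Tendsto (fun i => cond (K i) (m i)) l Filter.atTop)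
    (hr : Filter.Tendsto (fun i => Real.log (classNumber (K i) * (m i : ℝ) ^ 2 / (Ψ i).card) /
      Real.log (cond (K i) (m i))) l (nhds 0)) :
    (∃ E : ∀ i, Finset (Ideal (𝓞 (K i)) →*₀ ℂ), (∀ i, E i ⊆ Ψ i) ∧
      Filter.Tendsto (fun i => ((E i).card : ℝ) / (Ψ i).card) l (nhds 0) ∧
      ∀ (T δ ε : ℝ) (g : ℂ → ℝ), 0 < δ → 0 < ε → Continuous g → HasCompactSupport g →
        ∀ᶠ i in l, ∀ χ ∈ Ψ i, χ ∉ E i →
          Individual T δ ε g (Real.log (cond (K i) (m i))) (L i χ)) ∧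
    Law l (fun i s => ∏ χ ∈ Ψ i, L i χ s)
      (fun i => (Ψ i).card * Real.log (cond (K i) (m i))) := by
  haveI : ∀ i, IsTotallyComplex (K i) := fun i => (hK i).2
  have hdat : ∀ i, ∀ ψ ∈ Ψ i, ∃ (k : ℕ) (μ : (K i →+* ℂ) → ℝ) (Λ F : ℂ → ℂ),
      Pool.Agent.H465.CG.HM ψ k 1 μ (Pool.Agent.H465.CG.AA (K i) (m i)) Λ F := fun i ψ hψ =>
    Pool.Agent.H465.CG.prim_data (hK i).1 ((hΨ i ψ hψ).conv (hK i).2)
  have hcl : ∀ i, (Nat.card (ClassGroup (𝓞 (K i))) : ℝ) = classNumber (K i) := fun i => by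
    rw [Nat.card_eq_fintype_card]
    rfl
  have hF : Pool.Agent.H465.CG.FamH l K m Ψ L 1 := by
    refine ⟨zero_le_one, fun i => (hK i).1, hm, hne, fun i ψ hψ => (hΨ i ψ hψ).supp,
      fun i ψ hψ ψ' hψ' x hx hx1 => ?_, hdat, fun i ψ hψ => ?_, hA, ?_⟩
    · exact Pool.Agent.H465.CG.prim_agree ((hΨ i ψ hψ).conv (hK i).2)
        ((hΨ i ψ' hψ').conv (hK i).2) x hx hx1
    · obtain ⟨k, μ, Λ, F, hd⟩ := hdat i ψ hψ
      exact Pool.Agent.H465.PT.cont_of_prod hd.le (hL i ψ hψ).analytic (hL i ψ hψ).euler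
    · simp only [hcl]
      exact hr
  constructor
  · obtain ⟨E, h1, h2, h3⟩ := Pool.Agent.H465.CG.fam_almost hF
    refine ⟨E, h1, h2, fun T δ ε g hδ hε hg hgc => ?_⟩
    filter_upwards [h3 T δ ε g hδ hε hg hgc] with i hi χ h4 h5
    obtain ⟨a1, a2, a3, a4, a5, a6⟩ := hi χ h4 h5
    simp only [hp] at a2 a5 a6
    refine ⟨a1, a2, fun s s1 s2 s3 => ?_, a4, fun t ht => ?_, a6⟩
    · rw [mul_comm ε]
      exact a3 s s1 s2 s3
    · rw [nearSum_eq hδ]
      exact a5 t ht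
  · refine Law.of (Pool.Agent.H465.CG.fam_pos hF) (fun i t => ?_) (fun T δ ε hδ hε => ?_)
    · obtain ⟨k, Λ, hdeg⟩ := Pool.Agent.H465.CG.fam_deg hF
      have hd := hdeg i
      have h1 : 0 < (Pool.Agent.H465.EQ.pt t).re := by
        rw [Pool.Agent.H465.PT.pt_re]
        norm_num
      have h2 := Pool.Agent.H465.PT.pt_ne_one t
      have hop : IsOpen {z : ℂ | 0 < z.re ∧ z ≠ 1} :=
        (isOpen_lt continuous_const Complex.continuous_re).inter isOpen_ne
      have hLa : AnalyticAt ℂ (fun s => ∏ χ ∈ Ψ i, L i χ s) (Pool.Agent.H465.EQ.pt t) := by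
        have h3 : DifferentiableOn ℂ (fun s => ∏ χ ∈ Ψ i, L i χ s) {z : ℂ | 0 < z.re ∧ z ≠ 1} :=
          fun z hz => (hd.dif z hz.1 hz.2).differentiableWithinAt
        exact h3.analyticAt (hop.mem_nhds ⟨h1, h2⟩)
      have ho : meromorphicOrderAt (fun s => ∏ χ ∈ Ψ i, L i χ s) (Pool.Agent.H465.EQ.pt t) ≠ ⊤ := by
        rw [hLa.meromorphicOrderAt_eq]
        have h4 := Pool.Agent.H465.PT.order_ne_top hd.ent (z₀ := 2) (hd.neL (by norm_num))
          (Pool.Agent.H465.EQ.pt t)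
        rw [hd.order h1 h2] at h4
        intro h3
        rw [ENat.map_eq_top_iff] at h3
        exact h4 h3
      rw [← hp]
      exact hLa.meromorphicAt.meromorphicTrailingCoeffAt_ne_zero ho
    · filter_upwards [Pool.Agent.H465.CG.fam_law hF T hδ hε] with i hi t ht
      have h1 := (hi t ht).1
      rw [nearSum_eq hδ]
      simp only [hp] at h1
      exact h1

lemma Law.congr {ι : Type} {l : Filter ι} {P Q : ι → ℂ → ℂ} {X : ι → ℝ}
    (h : Law l P X) (he : ∀ i, ∀ s : ℂ, s ≠ 1 → P i s = Q i s) : Law l Q X := by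
  have hz : ∀ i g, zeroSum (P i) g = zeroSum (Q i) g := by
    intro i g
    unfold zeroSum
    refine finsum_congr fun ρ => ?_
    by_cases hρ : 0 < ρ.re ∧ ρ.re < 1
    · rw [if_pos hρ, if_pos hρ]
      have h1 : ρ ≠ 1 := by
        rintro rfl
        simp at hρ
      have h2 : P i =ᶠ[nhds ρ] Q i := by
        filter_upwards [isOpen_ne.mem_nhds h1] with s hs
        exact he i s hs
      unfold analyticOrderNatAt
      rw [analyticOrderAt_congr h2]
    · rw [if_neg hρ, if_neg hρ]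
  have hn : ∀ i c δ, nearSum (P i) c δ = nearSum (Q i) c δ := by
    intro i c δ
    unfold nearSum
    exact hz i _
  have hl : ∀ i (t : ℝ), lead (P i) (1 / 2 + t * Complex.I) = lead (Q i) (1 / 2 + t * Complex.I) := by
    intro i t
    unfold lead
    refine meromorphicTrailingCoeffAt_congr_nhdsNE ?_
    refine Filter.Eventually.filter_mono nhdsWithin_le_nhds ?_
    have h1 : (1 / 2 + t * Complex.I : ℂ) ≠ 1 := by
      intro h
      have := congrArg Complex.re h
      norm_num at this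
    filter_upwards [isOpen_ne.mem_nhds h1] with s hs
    exact he i s hs
  obtain ⟨h1, h2, h3⟩ := h
  simp only [hn, hl] at h1 h2 h3
  exact ⟨h1, h2, h3⟩

/-- The theorem for Hilbert class fields. -/
theorem hilbert {ι : Type} (l : Filter ι) (K H : ι → Type) [∀ i, Field (K i)]
    [∀ i, NumberField (K i)] [∀ i, Field (H i)] [∀ i, NumberField (H i)] [∀ i, Algebra (K i) (H i)]
    (ζ : ι → ℂ → ℂ) (hK : ∀ i, ImaginaryQuadratic (K i))
    (hH : ∀ i, IsHilbertClassField (K i) (H i)) (hζ : ∀ i, IsZetaFunction (H i) (ζ i))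
    (hA : Filter.Tendsto (fun i => |(discr (K i) : ℝ)|) l Filter.atTop) :
    Law l ζ (fun i => classNumber (K i) * Real.log |(discr (K i) : ℝ)|) := by
  classical
  haveI : ∀ i, IsTotallyComplex (K i) := fun i => (hK i).2
  choose Ψ hΨ hcard hf using fun i => Pool.Agent.H894.CG.sUnr (K i)
  have hcl : ∀ i, Nat.card (ClassGroup (𝓞 (K i))) = classNumber (K i) := fun i =>
    Nat.card_eq_fintype_card
  have hone : ∀ i, ∀ 𝔞 : Ideal (𝓞 (K i)), 𝔞 ≠ ⊥ → Pool.Agent.Y772.NZ.one (K i) 𝔞 = 1 :=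
    fun i 𝔞 h => Pool.Agent.Y772.NZ.one_ne (K i) h
  have hc : ∀ i, ∀ χ : Ideal (𝓞 (K i)) →*₀ ℂ, ∃ L : ℂ → ℂ, χ ∈ Ψ i → IsLFunction χ L := by
    intro i χ
    by_cases h : χ ∈ Ψ i
    · obtain ⟨L, hL⟩ := Pool.Agent.H465.PT.cont_exists ((hΨ i χ).1 h)
      obtain ⟨k, e, Λ, F, hd⟩ := Pool.Agent.H465.PT.hd_all ((hΨ i χ).1 h)
      refine ⟨L, fun _ => ⟨fun s hs => ?_, hL.dif⟩⟩
      rw [hL.ser s hs]
      exact Pool.Agent.H465.PT.LI_prod hd.le hs
    · exact ⟨0, fun h' => absurd h' h⟩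
  choose L hL using hc
  have htop : ∀ i, Ideal.span {((1 : ℕ) : 𝓞 (K i))} = ⊤ := fun i => by
    rw [Nat.cast_one, Ideal.span_singleton_one]
  have hne : ∀ i, (Ψ i).Nonempty := fun i => by
    rw [← Finset.card_pos, hcard i]
    exact Nat.card_pos
  have hcond : ∀ i, cond (K i) 1 = |(discr (K i) : ℝ)| := fun i => by
    unfold cond
    rw [Nat.cast_one, one_pow, mul_one]
  have hx : ∀ i, ((Ψ i).card : ℝ) * Real.log (cond (K i) 1) =
      classNumber (K i) * Real.log |(discr (K i) : ℝ)| := fun i => by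
    rw [hcond, hcard, hcl]
  have hpr : ∀ i, ∀ χ ∈ Ψ i, IsPrimitive (Ideal.span {((1 : ℕ) : 𝓞 (K i))}) χ := by
    intro i χ hχ
    rw [htop]
    have h := (hΨ i χ).1 hχ
    refine ⟨h.ne_bot, h.supp, fun x h1 h2 => h.ray x h1 h2 (Pool.Agent.Y773.IQ.tpos_all _),
      fun 𝔤 h1 h2 => ?_⟩
    exact absurd (top_le_iff.1 (Ideal.le_of_dvd h1)) h2
  obtain ⟨-, h2⟩ := family l K (fun _ => 1) Ψ L hK (fun _ => le_rfl) hne hpr
    (fun i χ hχ => hL i χ hχ) (by simpa only [hcond] using hA) (by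
      refine Filter.Tendsto.congr (f₁ := fun _ => (0 : ℝ)) (fun i => ?_) tendsto_const_nhds
      have h5 : (classNumber (K i) : ℝ) ≠ 0 := by
        rw [← hcl i]
        exact_mod_cast Nat.card_pos.ne'
      rw [hcard i, hcl i, Nat.cast_one, one_pow, mul_one, div_self h5, Real.log_one, zero_div])
  have heq : ∀ i, ∀ s : ℂ, s ≠ 1 → ∏ χ ∈ Ψ i, L i χ s = ζ i s := by
    intro i s hs
    have hnorm : ∀ 𝔞, ‖Pool.Agent.Y772.NZ.one (K i) 𝔞‖ ≤ 1 :=
      Pool.Agent.Y772.NZ.one_norm (K i)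
    refine Pool.Agent.H465.CG.prod_eq (H := H i) (θ := fun _ => 1)
      ⟨(hH i).degree, (hH i).number⟩ le_rfl (fun 𝔞 h => ?_) hnorm
      (hf i _ (hone i)) (fun v w _ => ?_) (hζ i).analytic (fun s hs => ?_)
      (fun χ hχ => ?_) hs
    · rw [hone i 𝔞 h, htop]
      simp only [ne_eq, one_ne_zero, not_false_eq_true, true_iff]
      rw [Ideal.isCoprime_iff_sup_eq]
      exact sup_top_eq _
    · rw [hone i _ v.ne_bot, one_pow]
    · simp only [one_mul]
      exact (hζ i).euler s hs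
    · obtain ⟨k, e, Λ, F, hd⟩ := Pool.Agent.H465.PT.hd_all ((hΨ i χ).1 hχ)
      exact Pool.Agent.H465.PT.cont_of_prod hd.le (hL i χ hχ).analytic (hL i χ hχ).euler
  simp only [hx] at h2
  exact h2.congr heq

/-- **Main theorem.** First for families of ray class characters of imaginary quadratic fields, then
for the Dedekind zeta functions of the Hilbert class fields of imaginary quadratic fields. -/
theorem result :
    (∀ (ι : Type) (l : Filter ι) (K : ι → Type) [∀ i, Field (K i)] [∀ i, NumberField (K i)]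
      (m : ι → ℕ) (Ψ : ∀ i, Finset (Ideal (𝓞 (K i)) →*₀ ℂ))
      (L : ∀ i, (Ideal (𝓞 (K i)) →*₀ ℂ) → ℂ → ℂ),
      (∀ i, ImaginaryQuadratic (K i)) → (∀ i, 1 ≤ m i) → (∀ i, (Ψ i).Nonempty) →
      (∀ i, ∀ χ ∈ Ψ i, IsPrimitive (Ideal.span {(m i : 𝓞 (K i))}) χ) →
      (∀ i, ∀ χ ∈ Ψ i, IsLFunction χ (L i χ)) →
      Filter.Tendsto (fun i => cond (K i) (m i)) l Filter.atTop →
      Filter.Tendsto (fun i => Real.log (classNumber (K i) * (m i : ℝ) ^ 2 / (Ψ i).card) /
        Real.log (cond (K i) (m i))) l (nhds 0) →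
      -- all characters outside of a set of density zero
      (∃ E : ∀ i, Finset (Ideal (𝓞 (K i)) →*₀ ℂ), (∀ i, E i ⊆ Ψ i) ∧
        Filter.Tendsto (fun i => ((E i).card : ℝ) / (Ψ i).card) l (nhds 0) ∧
        ∀ (T δ ε : ℝ) (g : ℂ → ℝ), 0 < δ → 0 < ε → Continuous g → HasCompactSupport g →
          ∀ᶠ i in l, ∀ χ ∈ Ψ i, χ ∉ E i →
            Individual T δ ε g (Real.log (cond (K i) (m i))) (L i χ)) ∧
      -- the product
      Law l (fun i s => ∏ χ ∈ Ψ i, L i χ s)
        (fun i => (Ψ i).card * Real.log (cond (K i) (m i)))) ∧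
    (∀ (ι : Type) (l : Filter ι) (K H : ι → Type) [∀ i, Field (K i)] [∀ i, NumberField (K i)]
      [∀ i, Field (H i)] [∀ i, NumberField (H i)] [∀ i, Algebra (K i) (H i)] (ζ : ι → ℂ → ℂ),
      (∀ i, ImaginaryQuadratic (K i)) → (∀ i, IsHilbertClassField (K i) (H i)) →
      (∀ i, IsZetaFunction (H i) (ζ i)) →
      Filter.Tendsto (fun i => |(discr (K i) : ℝ)|) l Filter.atTop →
      Law l ζ (fun i => classNumber (K i) * Real.log |(discr (K i) : ℝ)|)) := by
  refine ⟨?_, ?_⟩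
  · intro ι l K _ _ m Ψ L h1 h2 h3 h4 h5 h6 h7
    exact family l K m Ψ L h1 h2 h3 h4 h5 h6 h7
  · intro ι l K H _ _ _ _ _ ζ h1 h2 h3 h4
    exact hilbert l K H ζ h1 h2 h3 h4

end Pool.Agent.Results.MP_3b6604_nt.LeadingCoefficients
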