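import Pool.Agent.H293.EXN.ArtJ

set_option autoImplicit false
set_option linter.unusedSectionVars false

/-!
# Artin L-functions: independence, disjointness and central orders from lower limits of twisted prime sums

No hypothesis is assumed.  `M/K` is any Galois extension of number fields with group `G` (the question is about
`K = ℚ`).  For a function `c` on the characters of `G` with `|c(χ)| = 1` and `c(χ̄) = conj c(χ)` let
`φ_c = ∑_χ c(χ) χ(1) χ`, a real class function (`φ_1` is the regular character), and for `a > 1/2`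
`F_c(x) = ∑_{Nv^k ≤ x} φ_c(Frob_v^k) log Nv · Nv^(-k/2) (Nv^k/x)^a log(x/Nv^k) - c(1) √x/(a+1/2)²`,
a sum over the powers of the unramified primes `v` of `K`.  Let `W_a = (1/a) (ξ'/ξ)(1/2 + a)`, `ξ` the completed zeta
function of `M`.
-/

namespace Pool.Agent.Results.MP_3b6604_nt.LowerLimitsOfTwistedSums

open Filter Topology Set Complex NumberField IsDedekindDomain
open Pool.Agent.Q92.AR (Unramified frob artinL cont)
open Pool.Agent.H541R3.ART (irrF mem_irrF)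
open scoped ComplexConjugate

/-- the lower limit for `x → ∞` -/
noncomputable def low (G : ℝ → ℝ) : EReal := liminf (fun x : ℝ => (G x : EReal)) atTop

/-- the upper limit for `x → ∞` -/
noncomputable def upp (G : ℝ → ℝ) : EReal := limsup (fun x : ℝ => (G x : EReal)) atTop

/-- the completed Dedekind zeta function of `M` times `s (s - 1)`, for `Re s > 1` -/
noncomputable def xi (M : Type) [Field M] [NumberField M] (s : ℂ) : ℂ :=
  s * (s - 1) * ((|(discr M : ℝ)| : ℝ) : ℂ) ^ (s / 2) * Gammaℝ s ^ InfinitePlace.nrRealPlaces M *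
    Gammaℂ s ^ InfinitePlace.nrComplexPlaces M * dedekindZeta M s

/-- `W_a = (1/a) (ξ'/ξ)(1/2 + a)` -/
noncomputable def W (M : Type) [Field M] [NumberField M] (a : ℝ) : ℝ := (logDeriv (xi M) (1 / 2 + a)).re / a

section
variable {K M : Type} [Field K] [NumberField K] [Field M] [NumberField M] [Algebra K M] [IsGalois K M]

/-- the order at `s` of the meromorphic continuation of the Artin L-function `L(s, χ)` -/
noncomputable def ord (χ : (M ≃ₐ[K] M) → ℂ) (s : ℂ) : ℤ := (meromorphicOrderAt (cont (artinL M χ)) s).untop₀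

/-- the twists: unimodular functions with `c(χ̄) = conj c(χ)` -/
def Twist (c : ((M ≃ₐ[K] M) → ℂ) → ℂ) : Prop :=
  (∀ χ, ‖c χ‖ = 1) ∧ ∀ χ : (M ≃ₐ[K] M) → ℂ, c (fun g => conj (χ g)) = conj (c χ)

/-- the class function `φ_c = ∑_χ c(χ) χ(1) χ`, real valued for a twist `c` -/
noncomputable def phi (c : ((M ≃ₐ[K] M) → ℂ) → ℂ) (g : M ≃ₐ[K] M) : ℂ := ∑ χ ∈ irrF (M ≃ₐ[K] M), c χ * χ 1 * χ g

/-- `F_c(x)`, a sum over the pairs `(v, k)`, `k ≥ 1`, `v` unramified, with `Nv^k ≤ x` (`p.2 = k - 1`), minus the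
main term -/
noncomputable def F (c : ((M ≃ₐ[K] M) → ℂ) → ℂ) (a x : ℝ) : ℝ :=
  (∑ᶠ p ∈ {p : HeightOneSpectrum (𝓞 K) × ℕ | Unramified M p.1 ∧ ((Ideal.absNorm p.1.asIdeal : ℝ) ^ (p.2 + 1)) ≤ x},
    (phi c (frob M p.1 ^ (p.2 + 1))).re *
      (Real.log (Ideal.absNorm p.1.asIdeal) / Real.sqrt ((Ideal.absNorm p.1.asIdeal : ℝ) ^ (p.2 + 1)) *
      ((Ideal.absNorm p.1.asIdeal : ℝ) ^ (p.2 + 1) / x) ^ a *
        Real.log (x / (Ideal.absNorm p.1.asIdeal : ℝ) ^ (p.2 + 1)))) -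
    (c fun _ => 1).re * (Real.sqrt x / (a + 1 / 2) ^ 2)

/-- the amplitude: the sum of `|∑_χ c(χ) χ(1) ord_{1/2+iγ} L(s, χ)| / (a² + γ²)` over all real `γ ≠ 0` -/
noncomputable def A (c : ((M ≃ₐ[K] M) → ℂ) → ℂ) (a : ℝ) : ℝ :=
  ∑' γ : ℝ, if γ = 0 then 0 else
    ‖∑ χ ∈ irrF (M ≃ₐ[K] M), c χ * χ 1 * (ord χ (1 / 2 + (γ : ℂ) * I) : ℂ)‖ / (a ^ 2 + γ ^ 2)

/-- `∑_χ Re c(χ) χ(1) κ(χ)` -/
noncomputable def T (κ : ((M ≃ₐ[K] M) → ℂ) → ℤ) (c : ((M ≃ₐ[K] M) → ℂ) → ℂ) : ℝ :=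
  (∑ χ ∈ irrF (M ≃ₐ[K] M), c χ * χ 1 * (κ χ : ℂ)).re

variable (K M) in
open Classical in
/-- the Riemann hypothesis for all `L(s, χ)`: no zeros and no poles with `Re s > 1/2`, except for the pole at `1` of the
zeta function -/
def GRH : Prop := ∀ χ ∈ irrF (M ≃ₐ[K] M), ∀ s : ℂ, 1 / 2 < s.re → ord χ s = if s = 1 ∧ ∀ g, χ g = 1 then -1 else 0

variable (K M) in
/-- Artin's conjecture on the critical line, except for the point `1/2` -/
def Artin : Prop := ∀ χ ∈ irrF (M ≃ₐ[K] M), ∀ γ : ℝ, γ ≠ 0 → 0 ≤ ord χ (1 / 2 + (γ : ℂ) * I)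

variable (K M) in
/-- the set of the positive ordinates of the zeros and poles of all `L(s, χ)` on the critical line -/
def Ordinates : Set ℝ := {γ : ℝ | 0 < γ ∧ ∃ χ ∈ irrF (M ≃ₐ[K] M), ord χ (1 / 2 + (γ : ℂ) * I) ≠ 0}

variable (K M) in
/-- the set of these ordinates is linearly independent over `ℚ` -/
def Independent : Prop := LinearIndependent ℚ (fun γ : Ordinates K M => (γ : ℝ))

variable (K M) in
/-- different characters have no common zero or pole on the critical line, except perhaps `1/2` -/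
def NoCommon : Prop := ∀ γ : ℝ, γ ≠ 0 → ∀ χ ∈ irrF (M ≃ₐ[K] M), ∀ ψ ∈ irrF (M ≃ₐ[K] M),
  ord χ (1 / 2 + (γ : ℂ) * I) ≠ 0 → ord ψ (1 / 2 + (γ : ℂ) * I) ≠ 0 → χ = ψ

/-- the Frobenius-Schur indicator -/
noncomputable def nu (χ : (M ≃ₐ[K] M) → ℂ) : ℂ :=
  (Nat.card (M ≃ₐ[K] M) : ℂ)⁻¹ * ∑ᶠ g : M ≃ₐ[K] M, χ (g * g)

open Classical in
/-- the central orders of the question: `1` if `χ` is symplectic and the order is odd (root number `-1`), else `0` -/
noncomputable def k0 (χ : (M ≃ₐ[K] M) → ℂ) : ℤ := if nu χ = -1 ∧ Odd (ord χ (1 / 2)) then 1 else 0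

end

section aux

open Pool.Agent.H293.EX Pool.Agent.H293.EXN
open Pool.Agent.Q253.NF (Dat IsDed)

/-- finitely many prime powers of bounded norm -/
lemma fin_norm {M : Type} [Field M] [NumberField M] (x : ℝ) :
    {p : HeightOneSpectrum (𝓞 M) × ℕ | ((Ideal.absNorm p.1.asIdeal : ℝ) ^ (p.2 + 1)) ≤ x}.Finite := by
  -- the terms of a convergent series with positive terms which are bounded below
  have h1 := (hgE (E := M)).2.2 1 (by norm_num)
  rcases le_or_gt x 0 with hx | hx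
  · refine Set.Finite.subset Set.finite_empty fun p hp => ?_
    have h2 : (0 : ℝ) < (Ideal.absNorm p.1.asIdeal : ℝ) ^ (p.2 + 1) := by
      have := two_le_norm p.1
      have h3 : (2 : ℝ) ≤ (Ideal.absNorm p.1.asIdeal : ℝ) := by exact_mod_cast this
      positivity
    have h4 : (Ideal.absNorm p.1.asIdeal : ℝ) ^ (p.2 + 1) ≤ x := hp
    linarith
  · have h5 := h1.tendsto_cofinite_zero
    have hc : 0 < Real.log 2 * Real.exp (-(2 * Real.log x + 0)) := by
      have := Real.log_pos (show (1 : ℝ) < 2 by norm_num)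
      positivity
    have h6 := h5.eventually (gt_mem_nhds hc)
    rw [Filter.eventually_cofinite] at h6
    refine h6.subset fun p hp => ?_
    have hp' : (Ideal.absNorm p.1.asIdeal : ℝ) ^ (p.2 + 1) ≤ x := hp
    have h7 := two_le_norm p.1
    have h8 : (2 : ℝ) ≤ (Ideal.absNorm p.1.asIdeal : ℝ) := by exact_mod_cast h7
    have h9 : lE M p ≤ Real.log x := by
      have e : lE M p = Real.log ((Ideal.absNorm p.1.asIdeal : ℝ) ^ (p.2 + 1)) := by
        rw [Real.log_pow]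
        unfold lE
        push_cast
        ring
      rw [e]
      exact Real.log_le_log (by positivity) hp'
    have h10 : Real.log 2 ≤ Real.log (Ideal.absNorm p.1.asIdeal) := Real.log_le_log (by norm_num) h8
    have h11 := lE_nonneg p
    show ¬ bE M p * Real.exp (-(1 * lE M p)) < Real.log 2 * Real.exp (-(2 * Real.log x + 0))
    rw [not_lt]
    have e2 : bE M p * Real.exp (-(1 * lE M p)) =
        Real.log (Ideal.absNorm p.1.asIdeal) * Real.exp (-(lE M p / 2 + lE M p)) := by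
      unfold bE
      rw [mul_assoc, ← Real.exp_add]
      congr 2
      unfold lE
      ring
    rw [e2]
    have h12 := Real.log_pos (show (1 : ℝ) < 2 by norm_num)
    refine mul_le_mul h10 (Real.exp_le_exp.2 ?_) (Real.exp_pos _).le (by linarith)
    linarith

variable {K M : Type} [Field K] [NumberField K] [Field M] [NumberField M] [Algebra K M] [IsGalois K M]

lemma F_eq (c : ((M ≃ₐ[K] M) → ℂ) → ℂ) (a u : ℝ) : F c a (Real.exp u) = FC c a u := by
  classical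
  set s : Finset (HeightOneSpectrum (𝓞 K) × ℕ) := (fin_norm (M := K) (Real.exp u)).toFinset with hs
  have hterm : ∀ p : HeightOneSpectrum (𝓞 K) × ℕ,
      (Ideal.absNorm p.1.asIdeal : ℝ) ^ (p.2 + 1) = Real.exp (lE K p) := by
    intro p
    have h7 := two_le_norm p.1
    have h8 : (0 : ℝ) < (Ideal.absNorm p.1.asIdeal : ℝ) := by
      have : (2 : ℝ) ≤ (Ideal.absNorm p.1.asIdeal : ℝ) := by exact_mod_cast h7
      linarith
    unfold lE
    rw [show ((p.2 : ℝ) + 1) * Real.log (Ideal.absNorm p.1.asIdeal) =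
      ((p.2 + 1 : ℕ) : ℝ) * Real.log (Ideal.absNorm p.1.asIdeal) by push_cast; ring, Real.exp_nat_mul,
      Real.exp_log h8]
  have hmem : ∀ p, p ∈ s ↔ lE K p ≤ u := by
    intro p
    rw [hs, Set.Finite.mem_toFinset, Set.mem_ofPred_eq, hterm, Real.exp_le_exp]
  -- the terms
  have hE : ∀ p ∈ s, (Real.log (Ideal.absNorm p.1.asIdeal) / Real.sqrt ((Ideal.absNorm p.1.asIdeal : ℝ) ^ (p.2 + 1)) *
      ((Ideal.absNorm p.1.asIdeal : ℝ) ^ (p.2 + 1) / Real.exp u) ^ a *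
        Real.log (Real.exp u / (Ideal.absNorm p.1.asIdeal : ℝ) ^ (p.2 + 1))) =
      bE K p * (max (u - lE K p) 0 * Real.exp (-(a * (u - lE K p)))) := by
    intro p hp
    have h1 := (hmem p).1 hp
    rw [hterm, ← Real.exp_half, ← Real.exp_sub, ← Real.exp_sub, Real.log_exp, max_eq_left (by linarith)]
    have e1 : Real.exp (lE K p - u) ^ a = Real.exp (-(a * (u - lE K p))) := by
      rw [← Real.exp_mul]
      congr 1
      ring
    rw [e1]
    unfold bE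
    have e2 : Real.exp (-(((p.2 : ℝ) + 1) * Real.log (Ideal.absNorm p.1.asIdeal) / 2)) =
        (Real.exp (lE K p / 2))⁻¹ := by
      rw [← Real.exp_neg]
      congr 1
    rw [e2]
    ring
  have hFA : ∀ χ : (M ≃ₐ[K] M) → ℂ, FA χ a u = (∑ p ∈ s, bA χ p *
      ((max (u - lE K p) 0 * Real.exp (-(a * (u - lE K p))) : ℝ) : ℂ)) -
      if ∀ g, χ g = 1 then ((Real.exp (u / 2) / (a + 1 / 2) ^ 2 : ℝ) : ℂ) else 0 := by
    intro χ
    unfold FA
    rw [tsum_eq_sum (s := s)]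
    intro p hp
    rw [hmem, not_le] at hp
    rw [max_eq_right (by linarith)]
    simp
  have hset : {p : HeightOneSpectrum (𝓞 K) × ℕ | Unramified M p.1 ∧
      ((Ideal.absNorm p.1.asIdeal : ℝ) ^ (p.2 + 1)) ≤ Real.exp u} = ((s.filter fun p => Unramified M p.1 : Finset _) :
        Set (HeightOneSpectrum (𝓞 K) × ℕ)) := by
    ext p
    rw [Finset.mem_coe, Finset.mem_filter, hmem, Set.mem_ofPred_eq, hterm, Real.exp_le_exp, and_comm]
  have hsum : ∑ χ ∈ irrF (M ≃ₐ[K] M), c χ * χ 1 * FA χ a u =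
      (∑ χ ∈ irrF (M ≃ₐ[K] M), c χ * χ 1 * ∑ p ∈ s, bA χ p *
        ((max (u - lE K p) 0 * Real.exp (-(a * (u - lE K p))) : ℝ) : ℂ)) -
      ∑ χ ∈ irrF (M ≃ₐ[K] M), c χ * χ 1 *
        (if ∀ g, χ g = 1 then ((Real.exp (u / 2) / (a + 1 / 2) ^ 2 : ℝ) : ℂ) else 0) := by
    rw [← Finset.sum_sub_distrib]
    exact Finset.sum_congr rfl fun χ _ => by rw [hFA, mul_sub]
  unfold F FC
  rw [hset, finsum_mem_coe_finset, Finset.sum_filter, ← Real.exp_half, hsum, sub_re]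
  congr 1
  · simp only [Finset.mul_sum]
    rw [Finset.sum_comm, Complex.re_sum]
    refine Finset.sum_congr rfl fun p hp => ?_
    by_cases h : Unramified M p.1
    · rw [if_pos h, hE p hp]
      have e : ∑ χ ∈ irrF (M ≃ₐ[K] M), c χ * χ 1 * (bA χ p *
          ((max (u - lE K p) 0 * Real.exp (-(a * (u - lE K p))) : ℝ) : ℂ)) =
          phi c (frob M p.1 ^ (p.2 + 1)) *
            ((bE K p * (max (u - lE K p) 0 * Real.exp (-(a * (u - lE K p)))) : ℝ) : ℂ) := by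
        unfold phi
        rw [Finset.sum_mul]
        refine Finset.sum_congr rfl fun χ _ => ?_
        unfold bA
        rw [if_pos h]
        push_cast
        ring
      rw [e, re_mul_ofReal]
    · rw [if_neg h]
      have e : ∑ χ ∈ irrF (M ≃ₐ[K] M), c χ * χ 1 * (bA χ p *
          ((max (u - lE K p) 0 * Real.exp (-(a * (u - lE K p))) : ℝ) : ℂ)) = 0 := by
        refine Finset.sum_eq_zero fun χ _ => ?_
        unfold bA
        rw [if_neg h]
        ring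
      rw [e, zero_re]
  · rw [Finset.sum_eq_single_of_mem _ (mem_irrF.2 (Pool.Agent.H112.NF.one_irr (K := K) (M := M)))]
    · rw [if_pos (fun _ => rfl), mul_one, re_mul_ofReal]
    · intro χ _ hne
      rw [if_neg (fun h => hne (funext h)), mul_zero]

lemma low_eq (c : ((M ≃ₐ[K] M) → ℂ) → ℂ) (a : ℝ) : low (F c a) = lowC c a := by
  unfold low lowC
  have h : (fun u : ℝ => (FC c a u : EReal)) = (fun x : ℝ => (F c a x : EReal)) ∘ Real.exp := by
    funext u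
    rw [Function.comp_apply, F_eq]
  rw [h, Filter.liminf_comp, Real.map_exp_atTop]

lemma upp_eq (c : ((M ≃ₐ[K] M) → ℂ) → ℂ) (a : ℝ) : upp (F c a) = uppC c a := by
  unfold upp uppC
  have h : (fun u : ℝ => (FC c a u : EReal)) = (fun x : ℝ => (F c a x : EReal)) ∘ Real.exp := by
    funext u
    rw [Function.comp_apply, F_eq]
  rw [h, Filter.limsup_comp, Real.map_exp_atTop]

lemma ord_cj {χ : (M ≃ₐ[K] M) → ℂ} (hχ : χ ∈ irrF (M ≃ₐ[K] M)) : ord (cj χ) (1 / 2) = ord χ (1 / 2) := by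
  have h := ordA_conj (mem_irrF.1 hχ) (1 / 2)
  have e : conj (1 / 2 : ℂ) = 1 / 2 := by
    rw [map_div₀, map_one, map_ofNat]
  rw [e] at h
  exact h

lemma k0_cj {χ : (M ≃ₐ[K] M) → ℂ} (hχ : χ ∈ irrF (M ≃ₐ[K] M)) : k0 (cj χ) = k0 χ := by
  classical
  have : Fintype (M ≃ₐ[K] M) := Fintype.ofFinite _
  have h1 : nu (cj χ) = conj (nu χ) := by
    unfold nu cj
    rw [finsum_eq_sum_of_fintype, finsum_eq_sum_of_fintype, map_mul, map_inv₀, map_natCast, map_sum]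
  have h2 : nu (cj χ) = -1 ↔ nu χ = -1 := by
    rw [h1]
    constructor
    · intro h
      have h3 := congrArg conj h
      rwa [Complex.conj_conj, map_neg, map_one] at h3
    · intro h
      rw [h, map_neg, map_one]
  unfold k0
  simp only [ord_cj hχ, h2]

end aux

/-- See the header. -/
theorem result (K M : Type) [Field K] [NumberField K] [Field M] [NumberField M] [Algebra K M] [IsGalois K M] :
    ({a : ℝ | 1 / 2 < a ∧ low (F (K := K) (M := M) (fun _ => 1) a) = ((-W M a : ℝ) : EReal)}.Infinite ↔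
      GRH K M ∧ Independent K M) ∧
    (GRH K M → Independent K M → ∀ c : ((M ≃ₐ[K] M) → ℂ) → ℂ, Twist c → ∀ a : ℝ, 1 / 2 < a →
      low (F c a) = ((-(T (fun χ => ord χ (1 / 2)) c / a ^ 2) - A c a : ℝ) : EReal) ∧
      upp (F c a) = ((-(T (fun χ => ord χ (1 / 2)) c / a ^ 2) + A c a : ℝ) : EReal)) ∧
    (∀ κ : ((M ≃ₐ[K] M) → ℂ) → ℤ, (∀ χ ∈ irrF (M ≃ₐ[K] M), κ (fun g => conj (χ g)) = κ χ) →
      ((∀ c : ((M ≃ₐ[K] M) → ℂ) → ℂ, Twist c → ∀ a : ℝ, 1 / 2 < a →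
        low (F c a) = ((-W M a + (T κ (fun _ => 1) - T κ c) / a ^ 2 : ℝ) : EReal)) ↔
      GRH K M ∧ Artin K M ∧ Independent K M ∧ NoCommon K M ∧ ∀ χ ∈ irrF (M ≃ₐ[K] M), ord χ (1 / 2) = κ χ) ∧
      (Artin K M → ((∀ c : ((M ≃ₐ[K] M) → ℂ) → ℂ, Twist c → {a : ℝ | 1 / 2 < a ∧
        low (F c a) = ((-W M a + (T κ (fun _ => 1) - T κ c) / a ^ 2 : ℝ) : EReal)}.Infinite) ↔
      GRH K M ∧ Independent K M ∧ NoCommon K M ∧ ∀ χ ∈ irrF (M ≃ₐ[K] M), ord χ (1 / 2) = κ χ))) ∧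
    ((∀ c : ((M ≃ₐ[K] M) → ℂ) → ℂ, Twist c → ∀ a : ℝ, 1 / 2 < a →
        low (F c a) = ((-W M a + (T (K := K) (M := M) k0 (fun _ => 1) - T k0 c) / a ^ 2 : ℝ) : EReal)) ↔
      GRH K M ∧ Artin K M ∧ Independent K M ∧ NoCommon K M ∧
      (∀ χ ∈ irrF (M ≃ₐ[K] M), nu χ ≠ -1 → ord χ (1 / 2) = 0) ∧
      (∀ χ ∈ irrF (M ≃ₐ[K] M), nu χ = -1 → (Odd (ord χ (1 / 2)) → ord χ (1 / 2) = 1) ∧
        (Even (ord χ (1 / 2)) → ord χ (1 / 2) = 0))) := by
  classical
  obtain ⟨D, hD⟩ := Pool.Agent.H293.EXN.ded M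
  have hW : ∀ a : ℝ, 1 / 2 < a → W M a = Pool.Agent.H293.EXN.WD D a := fun a ha => by
    rw [Pool.Agent.H293.EXN.WD_eq hD ha]
    rfl
  have hoA : ∀ (χ : (M ≃ₐ[K] M) → ℂ) (γ : ℝ), Pool.Agent.H293.EXN.oA χ γ = ((ord χ (1 / 2 + (γ : ℂ) * I) : ℤ) : ℝ) :=
    fun χ γ => rfl
  have hoA0 : ∀ χ : (M ≃ₐ[K] M) → ℂ, Pool.Agent.H293.EXN.oA χ 0 = ((ord χ (1 / 2) : ℤ) : ℝ) := by
    intro χ
    rw [hoA, ofReal_zero, zero_mul, add_zero]
  have hne : ∀ (χ : (M ≃ₐ[K] M) → ℂ) (γ : ℝ), Pool.Agent.H293.EXN.oA χ γ ≠ 0 ↔ ord χ (1 / 2 + (γ : ℂ) * I) ≠ 0 := by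
    intro χ γ
    rw [hoA, Ne, Int.cast_eq_zero]
  have hO : Ordinates K M = Pool.Agent.H293.EXN.OD D := by
    rw [← Pool.Agent.H293.EXN.OD_A (K := K) hD]
    unfold Ordinates
    simp only [hne]
  have hI : Independent K M ↔ LinearIndependent ℚ (fun γ : Pool.Agent.H293.EXN.OD D => (γ : ℝ)) := by
    unfold Independent
    rw [hO]
  have hG : GRH K M ↔ Pool.Agent.H293.EXN.Hy D := by
    constructor
    · intro h
      exact Pool.Agent.H293.EXN.hy_of_grh (K := K) hD fun χ hχ => h χ hχ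
    · intro h χ hχ
      exact Pool.Agent.H293.EXN.grh_of_hy hD h (mem_irrF.1 hχ)
  have hN : NoCommon K M ↔ Pool.Agent.H293.EXN.Dj K M := by
    unfold NoCommon Pool.Agent.H293.EXN.Dj
    simp only [hne]
  have hBC : ∀ (c : ((M ≃ₐ[K] M) → ℂ) → ℂ) (γ : ℝ), Pool.Agent.H293.EXN.BC c γ =
      ∑ χ ∈ irrF (M ≃ₐ[K] M), c χ * χ 1 * (ord χ (1 / 2 + (γ : ℂ) * I) : ℂ) := by
    intro c γ
    unfold Pool.Agent.H293.EXN.BC
    refine Finset.sum_congr rfl fun χ _ => ?_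
    rw [hoA, ofReal_intCast]
  have hA : ∀ (c : ((M ≃ₐ[K] M) → ℂ) → ℂ) (a : ℝ), A c a =
      Pool.Agent.H293.EXN.AC (Pool.Agent.H293.EXN.BC c) a := by
    intro c a
    unfold A Pool.Agent.H293.EXN.AC
    simp only [hBC]
  have hT : ∀ c : ((M ≃ₐ[K] M) → ℂ) → ℂ, T (fun χ => ord χ (1 / 2)) c = (Pool.Agent.H293.EXN.BC c 0).re := by
    intro c
    unfold T
    rw [hBC, ofReal_zero, zero_mul, add_zero]
  have hK : ∀ (κ : ((M ≃ₐ[K] M) → ℂ) → ℤ) (c : ((M ≃ₐ[K] M) → ℂ) → ℂ),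
      T κ (fun _ => 1) - T κ c = Pool.Agent.H293.EXN.K0 κ c := by
    intro κ c
    unfold T Pool.Agent.H293.EXN.K0
    rw [← sub_re, ← Finset.sum_sub_distrib]
    congr 1
    exact Finset.sum_congr rfl fun χ _ => by ring
  have main : ∀ κ : ((M ≃ₐ[K] M) → ℂ) → ℤ, (∀ χ ∈ irrF (M ≃ₐ[K] M), κ (fun g => conj (χ g)) = κ χ) →
      ((∀ c : ((M ≃ₐ[K] M) → ℂ) → ℂ, Twist c → ∀ a : ℝ, 1 / 2 < a →
        low (F c a) = ((-W M a + (T κ (fun _ => 1) - T κ c) / a ^ 2 : ℝ) : EReal)) ↔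
      GRH K M ∧ Artin K M ∧ Independent K M ∧ NoCommon K M ∧ ∀ χ ∈ irrF (M ≃ₐ[K] M), ord χ (1 / 2) = κ χ) := by
    intro κ hκ
    have h1 := Pool.Agent.H293.EXN.core (K := K) hD κ hκ
    constructor
    · intro h
      have h2 := h1.1 fun c hc a ha => by
        have h3 := h c hc a ha
        rwa [low_eq, hW a ha, hK] at h3
      obtain ⟨h3, h4, h5, h6⟩ := h2
      refine ⟨hG.2 h3, fun χ hχ γ hγ => ?_, hI.2 h4, hN.2 h5, fun χ hχ => ?_⟩
      · have h7 := Pool.Agent.H293.EXN.artin_of hD h5 hγ hχ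
        rw [hoA] at h7
        exact_mod_cast h7
      · have h7 := h6 χ hχ
        rw [hoA0] at h7
        exact_mod_cast h7
    · rintro ⟨h2, -, h4, h5, h6⟩ c hc a ha
      rw [low_eq, hW a ha, hK]
      refine h1.2 ⟨hG.1 h2, hI.1 h4, hN.1 h5, fun χ hχ => ?_⟩ c hc a ha
      rw [hoA0, h6 χ hχ]
  refine ⟨?_, fun h1 h2 c hc a ha => ?_, fun κ hκ => ⟨main κ hκ, fun hAr => ?_⟩, ?_⟩
  · constructor
    · intro h
      obtain ⟨a, ha, ha2⟩ := h.nonempty
      rw [low_eq, hW a ha] at ha2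
      refine ⟨hG.2 ((Pool.Agent.H293.EXN.low_one_iff (K := K) hD ha).1 ha2).1, hI.2 ?_⟩
      refine Pool.Agent.H293.EX.li_of_inf (fun γ hγ => hγ.1) (h.mono fun b hb => ?_)
      obtain ⟨hb1, hb2⟩ := hb
      rw [low_eq, hW b hb1] at hb2
      exact ⟨by linarith, ((Pool.Agent.H293.EXN.low_one_iff (K := K) hD hb1).1 hb2).2⟩
    · rintro ⟨h1, h2⟩
      refine (Set.Ioi_infinite (1 / 2 : ℝ)).mono fun a ha => ?_
      have ha' : 1 / 2 < a := ha
      refine ⟨ha', ?_⟩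
      rw [low_eq, hW a ha']
      exact (Pool.Agent.H293.EXN.low_one_iff (K := K) hD ha').2 ⟨hG.1 h1, Pool.Agent.H293.EX.li_cn (hI.1 h2) a⟩
  · have h3 := hG.1 h1
    have h4 := hI.1 h2
    have ha0 : 0 < a := by linarith
    rw [low_eq, upp_eq, hT, hA]
    exact ⟨Pool.Agent.H293.EXN.lowC_eq hD h3 h4 hc ha0, Pool.Agent.H293.EXN.uppC_eq hD h3 h4 hc ha0⟩
  · have h1 := Pool.Agent.H293.EXN.core2 (K := K) hD (fun χ hχ γ hγ => by
      rw [hoA]
      exact_mod_cast hAr χ hχ γ hγ) κ hκ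
    have h2 : ∀ c : ((M ≃ₐ[K] M) → ℂ) → ℂ, {a : ℝ | 1 / 2 < a ∧
        low (F c a) = ((-W M a + (T κ (fun _ => 1) - T κ c) / a ^ 2 : ℝ) : EReal)} =
        {a : ℝ | 1 / 2 < a ∧ Pool.Agent.H293.EXN.lowC c a =
          ((-Pool.Agent.H293.EXN.WD D a + Pool.Agent.H293.EXN.K0 κ c / a ^ 2 : ℝ) : EReal)} := by
      intro c
      ext a
      simp only [Set.mem_ofPred_eq]
      refine and_congr_right fun ha => ?_
      rw [low_eq, hW a ha, hK]
    have h3 : (∀ χ ∈ irrF (M ≃ₐ[K] M), ord χ (1 / 2) = κ χ) ↔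
        ∀ χ ∈ irrF (M ≃ₐ[K] M), Pool.Agent.H293.EXN.oA χ 0 = κ χ := by
      refine forall_congr' fun χ => forall_congr' fun _ => ?_
      rw [hoA0, Int.cast_inj]
    simp only [h2]
    rw [h3, hG, hI, hN]
    exact h1
  · rw [main k0 fun χ hχ => k0_cj hχ]
    refine and_congr Iff.rfl (and_congr Iff.rfl (and_congr Iff.rfl (and_congr Iff.rfl ?_)))
    constructor
    · intro h
      refine ⟨fun χ hχ h1 => ?_, fun χ hχ h1 => ⟨fun h2 => ?_, fun h2 => ?_⟩⟩
      · rw [h χ hχ]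
        unfold k0
        rw [if_neg (fun e => h1 e.1)]
      · have h3 := h χ hχ
        unfold k0 at h3
        rwa [if_pos ⟨h1, h2⟩] at h3
      · have h3 := h χ hχ
        unfold k0 at h3
        rwa [if_neg (fun e => (Int.not_odd_iff_even.2 h2) e.2)] at h3
    · rintro ⟨h1, h2⟩ χ hχ
      unfold k0
      by_cases h3 : nu χ = -1
      · by_cases h4 : Odd (ord χ (1 / 2))
        · rw [if_pos ⟨h3, h4⟩]
          exact (h2 χ hχ h3).1 h4
        · rw [if_neg (fun e => h4 e.2)]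
          exact (h2 χ hχ h3).2 (Int.not_odd_iff_even.1 h4)
      · rw [if_neg (fun e => h3 e.1)]
        exact h1 χ hχ h3

end Pool.Agent.Results.MP_3b6604_nt.LowerLimitsOfTwistedSums
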