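import Pool.Agent.H112.NF.Expo

/-!
# Central zeros, root numbers and linear independence: two inequalities for prime ideals

`M/K` is a Galois extension of number fields with group `G` (the question is about `K = ℚ`).  For an irreducible
character `χ` of `G` let `S_χ(u)` be the sum over the powers `v^(n+1)` of the unramified primes `v` of `K` of
`χ(Frob_v^(n+1)) log q_v q_v^(-(n+1)/2) exp (-|u - (n+1) log q_v|)`, minus `(8/3) e^(u/2)` if `χ = 1`.  Let
`∑ χ = ∑_H r(H) Ind_H^G 1` with rational numbers `r(H)` (they exist by Artin's theorem), and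
`V = ∑_H r(H) V_{M^H}` with `V_E = 2 (ξ_E'/ξ_E)(3/2) - 2 (ξ_E'/ξ_E)'(3/2)`, `ξ_E` the completed Dedekind zeta function.

Then, for any fixed `0 < lam ≤ 1/8`, Artin's conjecture and the Riemann hypothesis for all `L(s, χ)` together with the
statements (i) the positive ordinates of the zeros of all `L(s, χ)` on the critical line are linearly independent over
`ℚ`, (ii) `L(1/2, χ) ≠ 0` if `χ` is orthogonal or unitary, (iii) the order at `1/2` is `(1 - W(χ))/2` if `χ` is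
symplectic, are equivalent to two inequalities: the sum of the mean squares of the `S_χ` is at most `V + o(1)`, and the
mean of `exp (-lam Re ∑ S_χ)` is at most an explicit constant `+ o(1)`.  The constant is `exp` of a contour integral of
logarithmic derivatives of Dedekind zeta functions, times `(e^(2 lam) / √I₀(4 lam))^m`, `m` the number of the
symplectic `χ` with root number `-1`.
-/

set_option autoImplicit false
set_option linter.unusedSectionVars false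

namespace Pool.Agent.Results.MP_3b6604_nt.TwoPrimeInequalities

open MeasureTheory Filter Topology Set Complex NumberField IsDedekindDomain
open Pool.Agent.Q92.AR (Unramified frob artinL cont)
open Pool.Agent.Q92.RT (induced)
open Pool.Agent.H541R3.ART (irrF)

/-- the completed Dedekind zeta function times `s (s - 1)`, for `Re s > 1` -/
noncomputable def xi (E : Type) [Field E] [NumberField E] (s : ℂ) : ℂ :=
  s * (s - 1) * ((|(discr E : ℝ)| : ℝ) : ℂ) ^ (s / 2) * Gammaℝ s ^ InfinitePlace.nrRealPlaces E *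
    Gammaℂ s ^ InfinitePlace.nrComplexPlaces E * dedekindZeta E s

/-- the constant of a field -/
noncomputable def VE (E : Type) [Field E] [NumberField E] : ℝ :=
  2 * (logDeriv (xi E) (3 / 2) - deriv (logDeriv (xi E)) (3 / 2)).re

/-- the Bessel function `I₀` -/
noncomputable def I₀ (w : ℂ) : ℂ := ∑' k : ℕ, (w / 2) ^ (2 * k) / ((Nat.factorial k : ℂ) ^ 2)

section
variable {K M : Type} [Field K] [NumberField K] [Field M] [NumberField M] [Algebra K M] [IsGalois K M]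

/-- the order at `s` of the meromorphic continuation of the Artin L-function `L(s, χ)` -/
noncomputable def ord (χ : (M ≃ₐ[K] M) → ℂ) (s : ℂ) : ℤ := (meromorphicOrderAt (cont (artinL M χ)) s).untop₀

open Classical in
/-- the sum over the prime powers, minus the main term -/
noncomputable def S (χ : (M ≃ₐ[K] M) → ℂ) (u : ℝ) : ℂ :=
  (∑' x : HeightOneSpectrum (𝓞 K) × ℕ, if Unramified M x.1 then χ (frob M x.1 ^ (x.2 + 1)) *
    ((Real.log (Ideal.absNorm x.1.asIdeal) *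
      Real.exp (-(((x.2 : ℝ) + 1) * Real.log (Ideal.absNorm x.1.asIdeal) / 2)) *
      Real.exp (-|u - ((x.2 : ℝ) + 1) * Real.log (Ideal.absNorm x.1.asIdeal)|) : ℝ) : ℂ) else 0) -
    if ∀ g, χ g = 1 then ((8 / 3 * Real.exp (u / 2) : ℝ) : ℂ) else 0

/-- the mean square -/
noncomputable def W (χ : (M ≃ₐ[K] M) → ℂ) (U : ℝ) : ℝ := (1 / U) * ∫ u in (0 : ℝ)..U, ‖S χ u‖ ^ 2

variable (K M) in
/-- the exponential mean -/
noncomputable def E (lam U : ℝ) : ℝ :=
  (1 / U) * ∫ u in (0 : ℝ)..U, Real.exp (lam * -(∑ χ ∈ irrF (M ≃ₐ[K] M), S χ u).re)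

/-- the sum of the irreducible characters is the combination of the permutation characters with the coefficients `r` -/
def Rel (r : Subgroup (M ≃ₐ[K] M) → ℚ) : Prop :=
  ∀ g, ∑ χ ∈ irrF (M ≃ₐ[K] M), χ g = ∑ᶠ H : Subgroup (M ≃ₐ[K] M), (r H : ℂ) * induced H (1 : H →* ℂˣ) g

/-- the constant for the mean squares -/
noncomputable def V (r : Subgroup (M ≃ₐ[K] M) → ℚ) : ℝ :=
  ∑ᶠ H : Subgroup (M ≃ₐ[K] M), (r H : ℝ) * VE (IntermediateField.fixedField H)

/-- the circle function -/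
noncomputable def Z (r : Subgroup (M ≃ₐ[K] M) → ℚ) (t : ℂ) : ℂ :=
  (1 - t) ^ (-(1 / 2) : ℂ) * ∑ᶠ H : Subgroup (M ≃ₐ[K] M),
    (r H : ℂ) * logDeriv (xi (IntermediateField.fixedField H)) (1 / 2 + (1 - t) ^ (1 / 2 : ℂ))

/-- the constant for the exponential mean -/
noncomputable def R (r : Subgroup (M ≃ₐ[K] M) → ℚ) (lam : ℝ) : ℝ :=
  Real.exp (1 / (4 * Real.pi * I) * ∮ t in C(0, 1 / 2), Z r t * Complex.log (I₀ (4 * lam / t))).re

/-- the Frobenius-Schur indicator -/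
noncomputable def nu (χ : (M ≃ₐ[K] M) → ℂ) : ℂ :=
  (Nat.card (M ≃ₐ[K] M) : ℂ)⁻¹ * ∑ᶠ g : M ≃ₐ[K] M, χ (g * g)

variable (K M) in
open Classical in
/-- the number of the symplectic characters whose L-function has an odd order at `1/2` (root number `-1`) -/
noncomputable def m : ℕ := ((irrF (M ≃ₐ[K] M)).filter fun χ => nu χ = -1 ∧ Odd (ord χ (1 / 2))).card

variable (K M) in
/-- the multiset of the positive ordinates of the zeros of all L-functions on the critical line -/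
abbrev Zeros : Type := Σ χ : {χ // χ ∈ irrF (M ≃ₐ[K] M)}, Σ γ : {γ : ℝ // 0 < γ}, Fin (ord χ.1 (1 / 2 + (γ : ℝ) * I)).toNat

variable (K M) in
open Classical in
/-- Artin's conjecture and the Riemann hypothesis for `Re s ≥ 1/2` -/
def ArtinGRH : Prop := ∀ χ ∈ irrF (M ≃ₐ[K] M),
  (∀ s : ℂ, 1 / 2 < s.re → ord χ s = if s = 1 ∧ ∀ g, χ g = 1 then -1 else 0) ∧ ∀ γ : ℝ, 0 ≤ ord χ (1 / 2 + γ * I)

variable (K M) in
open Classical in
/-- the statements (i), (ii), (iii) of the question -/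
def Statements : Prop :=
  LinearIndependent ℚ (fun x : Zeros K M => (x.2.1 : ℝ)) ∧
  (∀ χ ∈ irrF (M ≃ₐ[K] M), nu χ ≠ -1 → ord χ (1 / 2) = 0) ∧
  (∀ χ ∈ irrF (M ≃ₐ[K] M), nu χ = -1 → ord χ (1 / 2) = if Odd (ord χ (1 / 2)) then 1 else 0)

end

open Pool.Agent.H112.NF (ordA NN Nice nice_iff li_main li_two NN_nonneg ord_le_NN le_one_of_LI GRH)
open Pool.Agent.H541R3.ART (mem_irrF)

open Classical in
theorem core (K M : Type) [Field K] [NumberField K] [Field M] [NumberField M] [Algebra K M] [IsGalois K M] :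
    ((ArtinGRH K M ∧ Statements K M) →
      Nice K M ∧ m K M = (NN K M 0).toNat ∧
      LinearIndependent ℚ (fun i : Pool.Agent.Q253.LM.IdxM (fun γ => (NN K M γ).toNat) => (i.1 : ℝ))) ∧
    (Nice K M → m K M ≤ (NN K M 0).toNat ∧ ((NN K M 0).toNat = m K M →
      LinearIndependent ℚ (fun i : Pool.Agent.Q253.LM.IdxM (fun γ => (NN K M γ).toNat) => (i.1 : ℝ)) →
      ArtinGRH K M ∧ Statements K M)) := by
  have hc : (1 / 2 : ℂ) + ((0 : ℝ) : ℂ) * I = 1 / 2 := by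
    rw [Complex.ofReal_zero, zero_mul, add_zero]
  have hm : (m K M : ℤ) = ∑ χ ∈ irrF (M ≃ₐ[K] M), if nu χ = -1 ∧ Odd (ord χ (1 / 2)) then (1 : ℤ) else 0 := by
    unfold m
    rw [Finset.card_filter]
    push_cast
    rfl
  have hN0 : NN K M 0 = ∑ χ ∈ irrF (M ≃ₐ[K] M), ord χ (1 / 2) := by
    unfold NN
    rw [hc]
    rfl
  constructor
  · rintro ⟨hA, hL, h2, h3⟩
    have h0 : ∀ χ ∈ irrF (M ≃ₐ[K] M), ∀ γ : ℝ, 0 ≤ ordA χ (1 / 2 + γ * I) := fun χ hχ => (hA χ hχ).2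
    have hL' := (li_two h0).1 hL
    have heq : ∀ χ ∈ irrF (M ≃ₐ[K] M), ord χ (1 / 2) = if nu χ = -1 ∧ Odd (ord χ (1 / 2)) then (1 : ℤ) else 0 := by
      intro χ hχ
      by_cases h4 : nu χ = -1
      · have h5 := h3 χ hχ h4
        by_cases h6 : Odd (ord χ (1 / 2))
        · rw [if_pos h6] at h5
          rw [if_pos ⟨h4, h6⟩]
          exact h5
        · rw [if_neg h6] at h5
          rw [if_neg (fun h => h6 h.2)]
          exact h5
      · rw [if_neg (fun h => h4 h.1)]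
        exact h2 χ hχ h4
    refine ⟨fun χ hχ => ⟨(hA χ (mem_irrF.2 hχ)).1, fun γ => ⟨h0 χ (mem_irrF.2 hχ) γ, ?_⟩⟩, ?_, hL'⟩
    · by_cases hγ : γ = 0
      · subst hγ
        rw [hc]
        have h4 := heq χ (mem_irrF.2 hχ)
        change ord χ (1 / 2) ≤ 1
        rw [h4]
        split_ifs <;> norm_num
      · exact (ord_le_NN h0 (mem_irrF.2 hχ) γ).trans (le_one_of_LI h0 hL' hγ)
    · have h4 : (m K M : ℤ) = NN K M 0 := by
        rw [hm, hN0]
        exact Finset.sum_congr rfl fun χ hχ => (heq χ hχ).symm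
      omega
  · intro hN
    have h0 : ∀ χ ∈ irrF (M ≃ₐ[K] M), ∀ γ : ℝ, 0 ≤ ordA χ (1 / 2 + γ * I) := fun χ hχ γ =>
      ((hN χ (mem_irrF.1 hχ)).2 γ).1
    have h01 : ∀ χ ∈ irrF (M ≃ₐ[K] M), 0 ≤ ord χ (1 / 2) ∧ ord χ (1 / 2) ≤ 1 := by
      intro χ hχ
      have := (hN χ (mem_irrF.1 hχ)).2 0
      rwa [hc] at this
    have hle : ∀ χ ∈ irrF (M ≃ₐ[K] M), (if nu χ = -1 ∧ Odd (ord χ (1 / 2)) then (1 : ℤ) else 0) ≤ ord χ (1 / 2) := by
      intro χ hχ
      obtain ⟨h1, h2⟩ := h01 χ hχ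
      split_ifs with h3
      · obtain ⟨k, hk⟩ := h3.2
        omega
      · exact h1
    have hle' : (m K M : ℤ) ≤ NN K M 0 := by
      rw [hm, hN0]
      exact Finset.sum_le_sum hle
    refine ⟨by omega, fun h1 hL => ⟨fun χ hχ => ⟨(hN χ (mem_irrF.1 hχ)).1, h0 χ hχ⟩, (li_two h0).2 hL, ?_, ?_⟩⟩
    · intro χ hχ h4
      have h5 : (m K M : ℤ) = NN K M 0 := by
        have := NN_nonneg h0 0
        omega
      rw [hm, hN0] at h5
      have h6 := (Finset.sum_eq_sum_iff_of_le hle).1 h5 χ hχ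
      rw [if_neg (fun h => h4 h.1)] at h6
      exact h6.symm
    · intro χ hχ _
      obtain ⟨h2, h3⟩ := h01 χ hχ
      by_cases h4 : Odd (ord χ (1 / 2))
      · rw [if_pos h4]
        obtain ⟨k, hk⟩ := h4
        omega
      · rw [if_neg h4]
        have h5 : ord χ (1 / 2) = 0 ∨ ord χ (1 / 2) = 1 := by omega
        rcases h5 with h5 | h5
        · exact h5
        · exact absurd (by rw [h5]; exact odd_one) h4

open Classical in
theorem result (K M : Type) [Field K] [NumberField K] [Field M] [NumberField M] [Algebra K M] [IsGalois K M] :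
    (∃ r : Subgroup (M ≃ₐ[K] M) → ℚ, Rel r) ∧
    ∀ r : Subgroup (M ≃ₐ[K] M) → ℚ, Rel r → ∀ lam : ℝ, 0 < lam → lam ≤ 1 / 8 →
    ((ArtinGRH K M ∧ Statements K M) ↔
      ((∀ ε : ℝ, 0 < ε → ∀ᶠ U : ℝ in atTop, ∑ χ ∈ irrF (M ≃ₐ[K] M), W χ U ≤ V r + ε) ∧
       ∀ ε : ℝ, 0 < ε → ∀ᶠ U : ℝ in atTop,
        E K M lam U ≤ R r lam * (Real.exp (2 * lam) / Real.sqrt (I₀ ((4 * lam : ℝ) : ℂ)).re) ^ m K M + ε)) ∧
    ((ArtinGRH K M ∧ Statements K M) →
      Tendsto (fun U => ∑ χ ∈ irrF (M ≃ₐ[K] M), W χ U) atTop (𝓝 (V r)) ∧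
      Tendsto (E K M lam) atTop
        (𝓝 (R r lam * (Real.exp (2 * lam) / Real.sqrt (I₀ ((4 * lam : ℝ) : ℂ)).re) ^ m K M))) := by
  refine ⟨Pool.Agent.H112.NF.exists_rel K M, fun r hr lam hl hl' => ?_⟩
  obtain ⟨c1, c2⟩ := core K M
  have hW : (∀ ε : ℝ, 0 < ε → ∀ᶠ U : ℝ in atTop, ∑ χ ∈ irrF (M ≃ₐ[K] M), W χ U ≤ V r + ε) ↔ Nice K M :=
    (nice_iff hr).symm
  have hGR : Nice K M → ∀ χ ∈ Pool.Agent.H541R3.ART.Irr (M ≃ₐ[K] M), GRH χ := fun h χ hχ => (h χ hχ).1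
  have h00 : Nice K M → ∀ γ, 0 ≤ NN K M γ := fun h γ =>
    NN_nonneg (fun χ hχ γ => ((h χ (mem_irrF.1 hχ)).2 γ).1) γ
  refine ⟨⟨fun h => ?_, fun h => ?_⟩, fun h => ?_⟩
  · obtain ⟨hN, h1, h2⟩ := c1 h
    exact ⟨hW.2 hN, (li_main (hGR hN) (h00 hN) hr hl hl' (c2 hN).1).1.1 ⟨h1.symm, h2⟩⟩
  · have hN := hW.1 h.1
    obtain ⟨h1, h2⟩ := (li_main (hGR hN) (h00 hN) hr hl hl' (c2 hN).1).1.2 h.2
    exact (c2 hN).2 h1 h2
  · obtain ⟨hN, h1, h2⟩ := c1 h
    refine ⟨?_, (li_main (hGR hN) (h00 hN) hr hl hl' (c2 hN).1).2.1 ⟨h1.symm, h2⟩⟩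
    have h3 := Pool.Agent.H112.NF.tend_all (hGR hN) hr
    have h4 : ∑ χ ∈ irrF (M ≃ₐ[K] M), Pool.Agent.H112.NF.ex χ = 0 :=
      le_antisymm ((Pool.Agent.H112.NF.bound_iff hr 0).1 (by simpa using (nice_iff hr).1 hN)).2
        (Finset.sum_nonneg fun χ _ => Pool.Agent.H112.NF.ex_nonneg χ)
    rw [h4, add_zero] at h3
    exact h3

end Pool.Agent.Results.MP_3b6604_nt.TwoPrimeInequalities
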